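import Pool.Agent.Helper645_PA.Defs

set_option autoImplicit false

/-!
# Orbit averages (proved by helper435)
-/

namespace Pool.Agent.Helper645_PA

open Finset



theorem rev_avg_dn {V : Type} (r : V → V → Prop) (P : Finset V)
    (h1 : ∀ x ∈ P, r x x) (h2 : ∀ x ∈ P, ∀ y ∈ P, r x y → r y x → x = y)
    (h3 : ∀ x ∈ P, ∀ y ∈ P, ∀ z ∈ P, r x y → r y z → r x z) (B : Finset V) (hB : Anti r P B)
    (x : V) (hx : x ∈ P) : (∀ b ∈ B, ¬ r b x) ↔ ∃ y ∈ rev r P B, r x y := by
  classical
  constructor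
  · intro hxB
    set T : Finset V := P.filter fun y => (∀ b ∈ B, ¬ r b y) ∧ r x y with hT
    have hTne : T.Nonempty := ⟨x, Finset.mem_filter.2 ⟨hx, hxB, h1 x hx⟩⟩
    obtain ⟨y, hyT, hmin⟩ := T.exists_min_image (fun y => (P.filter fun w => r y w).card) hTne
    obtain ⟨hyP, hyB, hxy⟩ := Finset.mem_filter.1 hyT
    refine ⟨y, mem_rev.2 ⟨hyP, hyB, ?_⟩, hxy⟩
    intro z hzP hzB hyz
    by_contra hne
    have hzT : z ∈ T := Finset.mem_filter.2 ⟨hzP, hzB, h3 x hx y hyP z hzP hxy hyz⟩
    have hle := hmin z hzT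
    have hss : (P.filter fun w => r z w) ⊂ (P.filter fun w => r y w) := by
      refine Finset.ssubset_iff_subset_ne.2 ⟨?_, ?_⟩
      · intro w hw
        obtain ⟨hwP, hzw⟩ := Finset.mem_filter.1 hw
        exact Finset.mem_filter.2 ⟨hwP, h3 y hyP z hzP w hwP hyz hzw⟩
      · intro heq
        have hy : y ∈ (P.filter fun w => r z w) := by
          rw [heq]
          exact Finset.mem_filter.2 ⟨hyP, h1 y hyP⟩
        exact hne (h2 z hzP y hyP (Finset.mem_filter.1 hy).2 hyz)
    exact absurd (Finset.card_lt_card hss) (not_lt.2 hle)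
  · rintro ⟨y, hy, hxy⟩ b hb hbx
    obtain ⟨hyP, hyB, -⟩ := mem_rev.1 hy
    exact hyB b hb (h3 b (hB.1 hb) x hx y hyP hbx hxy)

theorem rev_avg_inj {V : Type} (r : V → V → Prop) (P : Finset V)
    (h1 : ∀ x ∈ P, r x x) (h2 : ∀ x ∈ P, ∀ y ∈ P, r x y → r y x → x = y)
    (h3 : ∀ x ∈ P, ∀ y ∈ P, ∀ z ∈ P, r x y → r y z → r x z) (B C : Finset V) (hB : Anti r P B)
    (hC : Anti r P C) (h : rev r P B = rev r P C) : B = C := by
  have hD : ∀ x ∈ P, (∀ b ∈ B, ¬ r b x) ↔ (∀ b ∈ C, ¬ r b x) := by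
    intro x hx
    rw [rev_avg_dn r P h1 h2 h3 B hB x hx, rev_avg_dn r P h1 h2 h3 C hC x hx, h]
  have key : ∀ E : Finset V, Anti r P E → ∀ b, b ∈ E ↔ b ∈ P ∧ ¬ (∀ a ∈ E, ¬ r a b) ∧
      ∀ c ∈ P, r c b → ¬ (∀ a ∈ E, ¬ r a c) → c = b := by
    intro E hE b
    constructor
    · intro hb
      refine ⟨hE.1 hb, fun hcon => hcon b hb (h1 b (hE.1 hb)), ?_⟩
      intro c hc hcb hcE
      push Not at hcE
      obtain ⟨a, ha, hac⟩ := hcE
      have hab : r a b := h3 a (hE.1 ha) c hc b (hE.1 hb) hac hcb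
      have : a = b := hE.2 a ha b hb hab
      subst this
      exact h2 c hc a (hE.1 ha) hcb hac
    · rintro ⟨hbP, hbE, hmin⟩
      push Not at hbE
      obtain ⟨a, ha, hab⟩ := hbE
      have := hmin a (hE.1 ha) hab (fun hcon => hcon a ha (h1 a (hE.1 ha)))
      rw [← this]
      exact ha
  ext b
  rw [key B hB b, key C hC b]
  constructor
  · rintro ⟨hbP, hb1, hb2⟩
    refine ⟨hbP, fun hcon => hb1 ((hD b hbP).2 hcon), fun c hc hcb hcC => ?_⟩
    exact hb2 c hc hcb (fun hcon => hcC ((hD c hc).1 hcon))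
  · rintro ⟨hbP, hb1, hb2⟩
    refine ⟨hbP, fun hcon => hb1 ((hD b hbP).1 hcon), fun c hc hcb hcC => ?_⟩
    exact hb2 c hc hcb (fun hcon => hcC ((hD c hc).2 hcon))

theorem rev_avg_blocks (g : ℕ → ℕ) (p S k : ℕ)
    (h : ∀ q, ∑ s ∈ range p, g (q * p + s) = S) : ∑ t ∈ range (k * p), g t = k * S := by
  induction k with
  | zero => simp
  | succ k ih =>
    rw [Nat.add_mul, Nat.one_mul, Finset.sum_range_add, ih, h k, Nat.add_mul, Nat.one_mul]

theorem rev_avg {V : Type} (r : V → V → Prop) (P : Finset V) (N : ℕ) (hN : 1 ≤ N)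
    (h1 : ∀ x ∈ P, r x x) (h2 : ∀ x ∈ P, ∀ y ∈ P, r x y → r y x → x = y)
    (h3 : ∀ x ∈ P, ∀ y ∈ P, ∀ z ∈ P, r x y → r y z → r x z)
    (hG : Bal r P N) (A : Finset V) (hA : Anti r P A) (O : Finset (Finset V))
    (hO : ∀ B, B ∈ O ↔ ∃ t, (rev r P)^[t] A = B) :
    N * ∑ B ∈ O, B.card = P.card * O.card := by
  classical
  set f := rev r P with hf
  have hinj : ∀ i : ℕ, ∀ B C : Finset V, Anti r P B → Anti r P C → f^[i] B = f^[i] C → B = C := by
    intro i
    induction i with
    | zero => intro B C _ _ h; exact h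
    | succ i ih =>
      intro B C hB hC h
      rw [Function.iterate_succ_apply', Function.iterate_succ_apply'] at h
      exact ih B C hB hC (rev_avg_inj r P h1 h2 h3 _ _ (iter_anti hB i) (iter_anti hC i) h)
  -- periodicity
  have hper : A ∈ Function.periodicPts f := by
    have hmem : ∀ t ∈ range (P.powerset.card + 1), f^[t] A ∈ P.powerset := fun t _ =>
      Finset.mem_powerset.2 (iter_anti hA t).1
    obtain ⟨i, -, j, -, hij, heq⟩ := Finset.exists_ne_map_eq_of_card_lt_of_maps_to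
      (by rw [Finset.card_range]; exact Nat.lt_succ_self _) hmem
    have main : ∀ i j : ℕ, i < j → f^[i] A = f^[j] A → A ∈ Function.periodicPts f := by
      intro i j hij heq
      refine ⟨j - i, by omega, ?_⟩
      have e : f^[j] A = f^[i] (f^[j - i] A) := by
        rw [← Function.iterate_add_apply]
        congr 1
        rw [Nat.add_sub_cancel' hij.le]
      rw [e] at heq
      exact (hinj i _ _ hA (iter_anti hA (j - i)) heq).symm
    rcases Nat.lt_or_gt_of_ne hij with h | h
    · exact main i j h heq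
    · exact main j i h heq.symm
  set p := Function.minimalPeriod f A with hp
  have hp0 : 0 < p := Function.minimalPeriod_pos_of_mem_periodicPts hper
  have hOimg : O = (range p).image fun t => f^[t] A := by
    ext B
    rw [hO B, Finset.mem_image]
    constructor
    · rintro ⟨t, rfl⟩
      exact ⟨t % p, Finset.mem_range.2 (Nat.mod_lt _ hp0), Function.iterate_mod_minimalPeriod_eq⟩
    · rintro ⟨t, -, rfl⟩
      exact ⟨t, rfl⟩
  have hinjOn : Set.InjOn (fun t => f^[t] A) (range p : Set ℕ) := by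
    intro a ha b hb hab
    have ha' : a < p := Finset.mem_range.1 (Finset.mem_coe.1 ha)
    have hb' : b < p := Finset.mem_range.1 (Finset.mem_coe.1 hb)
    exact Function.iterate_injOn_Iio_minimalPeriod ha' hb' hab
  have hcard : O.card = p := by
    rw [hOimg, Finset.card_image_of_injOn hinjOn, Finset.card_range]
  have hsum : ∑ B ∈ O, B.card = ∑ t ∈ range p, (f^[t] A).card := by
    rw [hOimg, Finset.sum_image hinjOn]
  have hperiod : ∀ t, f^[t + p] A = f^[t] A := by
    intro t
    rw [Function.iterate_add_apply]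
    congr 1
    exact Function.iterate_minimalPeriod
  have hperiod' : ∀ q s, f^[q * p + s] A = f^[s] A := by
    intro q
    induction q with
    | zero => intro s; rw [Nat.zero_mul, Nat.zero_add]
    | succ q ih =>
      intro s
      have e : (q + 1) * p + s = (q * p + s) + p := by ring
      rw [e, hperiod, ih]
  have e1 : ∑ t ∈ range (N * p), (f^[t] A).card = N * ∑ t ∈ range p, (f^[t] A).card := by
    refine rev_avg_blocks _ p _ N fun q => ?_
    exact Finset.sum_congr rfl fun s _ => by rw [hperiod']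
  have e2 : ∑ t ∈ range (p * N), (f^[t] A).card = p * P.card := by
    refine rev_avg_blocks _ N _ p fun q => ?_
    have := hG (f^[q * N] A) (iter_anti hA _)
    rw [← this]
    refine Finset.sum_congr rfl fun s _ => ?_
    rw [Nat.add_comm, Function.iterate_add_apply]
  rw [hsum, hcard, ← e1, Nat.mul_comm N p, e2, Nat.mul_comm]

end Pool.Agent.Helper645_PA
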