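import Pool.Agent.Helper645_PA.Defs

set_option autoImplicit false

/-!
# Products of two chains (proved by helper900)
-/

namespace Pool.Agent.Helper645_PA

open Finset




/-- rows met by a set -/
def box_bal_Row (A : Finset (ℕ × ℕ)) (i : ℕ) : Prop := ∃ j, (i, j) ∈ A

/-- columns met by a set -/
def box_bal_Col (A : Finset (ℕ × ℕ)) (j : ℕ) : Prop := ∃ i, (i, j) ∈ A

theorem box_bal_mem {a b : ℕ} {A : Finset (ℕ × ℕ)} (i j : ℕ) :
    (i, j) ∈ rev prd (range a ×ˢ range b) A ↔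
      (i < a ∧ j < b) ∧ (∀ u v, (u, v) ∈ A → ¬ (u ≤ i ∧ v ≤ j)) ∧
        ∀ k l, k < a → l < b → (∀ u v, (u, v) ∈ A → ¬ (u ≤ k ∧ v ≤ l)) → i ≤ k → j ≤ l →
          k = i ∧ l = j := by
  rw [mem_rev]
  constructor
  · rintro ⟨h1, h2, h3⟩
    refine ⟨by simpa using h1, fun u v h => h2 (u, v) h, fun k l hk hl hD h4 h5 => ?_⟩
    have := h3 (k, l) (by simp [hk, hl]) (fun x hx => hD x.1 x.2 hx) ⟨h4, h5⟩
    exact Prod.mk.injEq _ _ _ _ ▸ this
  · rintro ⟨h1, h2, h3⟩
    refine ⟨by simpa using h1, fun x hx => h2 x.1 x.2 hx, fun y hy hD hle => ?_⟩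
    have hy' : y.1 < a ∧ y.2 < b := by simpa using hy
    obtain ⟨e1, e2⟩ := h3 y.1 y.2 hy'.1 hy'.2 (fun u v h => hD (u, v) h) hle.1 hle.2
    exact Prod.ext e1 e2

/-- a largest element -/
theorem box_bal_max (p : ℕ → Prop) (b j : ℕ) (hj : j < b) (hp : p j) :
    ∃ m, j ≤ m ∧ m < b ∧ p m ∧ ∀ l, l < b → p l → l ≤ m := by
  classical
  obtain ⟨m, hm, hmax⟩ := Finset.exists_max_image ((range b).filter p) (fun x => x)
    ⟨j, by simp [hj, hp]⟩
  rw [Finset.mem_filter, Finset.mem_range] at hm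
  refine ⟨m, ?_, hm.1, hm.2, fun l hl hpl => hmax l (by simp [hl, hpl])⟩
  exact hmax j (by simp [hj, hp])

theorem box_bal_R {a b : ℕ} {A : Finset (ℕ × ℕ)} (hA : Anti prd (range a ×ˢ range b) A)
    (i : ℕ) (hi : i + 1 < a) :
    box_bal_Row (rev prd (range a ×ˢ range b) A) i ↔ box_bal_Row A (i + 1) := by
  constructor
  · rintro ⟨j, hj⟩
    obtain ⟨⟨h1, h2⟩, h3, h4⟩ := (box_bal_mem i j).1 hj
    by_contra hcon
    have h5 := h4 (i + 1) j hi h2 (fun u v huv hle => ?_) (by omega) le_rfl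
    · omega
    · rcases Nat.lt_or_ge i u with h | h
      · have : u = i + 1 := by omega
        subst this
        exact hcon ⟨v, huv⟩
      · exact h3 u v huv ⟨h, hle.2⟩
  · rintro ⟨j', hj'⟩
    have hjP : i + 1 < a ∧ j' < b := by simpa using hA.1 hj'
    have hD : ∀ u v, (u, v) ∈ A → ¬ (u ≤ i ∧ v ≤ j') := by
      rintro u v huv ⟨h1, h2⟩
      have := hA.2 (u, v) huv (i + 1, j') hj' ⟨by show u ≤ i + 1; omega, h2⟩
      rw [Prod.mk.injEq] at this
      omega
    obtain ⟨m, hm1, hm2, hm3, hm4⟩ := box_bal_max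
      (fun j => ∀ u v, (u, v) ∈ A → ¬ (u ≤ i ∧ v ≤ j)) b j' hjP.2 hD
    refine ⟨m, (box_bal_mem i m).2 ⟨⟨by omega, hm2⟩, hm3, fun k l hk hl hkl h1 h2 => ?_⟩⟩
    have hki : k = i := by
      by_contra hne
      exact hkl (i + 1) j' hj' ⟨by omega, by omega⟩
    subst hki
    exact ⟨rfl, le_antisymm (hm4 l hl hkl) h2⟩

theorem box_bal_R' {a b : ℕ} (ha : 1 ≤ a) (hb : 1 ≤ b) {A : Finset (ℕ × ℕ)}
    (hA : Anti prd (range a ×ˢ range b) A) :
    box_bal_Row (rev prd (range a ×ˢ range b) A) (a - 1) ↔ ¬ box_bal_Col A 0 := by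
  constructor
  · rintro ⟨j, hj⟩ ⟨u, hu⟩
    obtain ⟨⟨h1, h2⟩, h3, h4⟩ := (box_bal_mem (a - 1) j).1 hj
    have huP : u < a ∧ 0 < b := by simpa using hA.1 hu
    exact h3 u 0 hu ⟨by omega, by omega⟩
  · intro h
    have hD : ∀ u v, (u, v) ∈ A → ¬ (u ≤ a - 1 ∧ v ≤ 0) := by
      rintro u v huv ⟨h1, h2⟩
      have : v = 0 := by omega
      subst this
      exact h ⟨u, huv⟩
    obtain ⟨m, hm1, hm2, hm3, hm4⟩ := box_bal_max
      (fun j => ∀ u v, (u, v) ∈ A → ¬ (u ≤ a - 1 ∧ v ≤ j)) b 0 (by omega) hD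
    refine ⟨m, (box_bal_mem (a - 1) m).2 ⟨⟨by omega, hm2⟩, hm3, fun k l hk hl hkl h1 h2 => ?_⟩⟩
    have hki : k = a - 1 := by omega
    subst hki
    exact ⟨rfl, le_antisymm (hm4 l hl hkl) h2⟩

theorem box_bal_C {a b : ℕ} {A : Finset (ℕ × ℕ)} (hA : Anti prd (range a ×ˢ range b) A)
    (j : ℕ) (hj : j + 1 < b) :
    box_bal_Col (rev prd (range a ×ˢ range b) A) j ↔ box_bal_Col A (j + 1) := by
  constructor
  · rintro ⟨i, hi⟩
    obtain ⟨⟨h1, h2⟩, h3, h4⟩ := (box_bal_mem i j).1 hi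
    by_contra hcon
    have h5 := h4 i (j + 1) h1 hj (fun u v huv hle => ?_) le_rfl (by omega)
    · omega
    · rcases Nat.lt_or_ge j v with h | h
      · have : v = j + 1 := by omega
        subst this
        exact hcon ⟨u, huv⟩
      · exact h3 u v huv ⟨hle.1, h⟩
  · rintro ⟨i', hi'⟩
    have hiP : i' < a ∧ j + 1 < b := by simpa using hA.1 hi'
    have hD : ∀ u v, (u, v) ∈ A → ¬ (u ≤ i' ∧ v ≤ j) := by
      rintro u v huv ⟨h1, h2⟩
      have := hA.2 (u, v) huv (i', j + 1) hi' ⟨h1, by show v ≤ j + 1; omega⟩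
      rw [Prod.mk.injEq] at this
      omega
    obtain ⟨m, hm1, hm2, hm3, hm4⟩ := box_bal_max
      (fun i => ∀ u v, (u, v) ∈ A → ¬ (u ≤ i ∧ v ≤ j)) a i' hiP.1 hD
    refine ⟨m, (box_bal_mem m j).2 ⟨⟨hm2, by omega⟩, hm3, fun k l hk hl hkl h1 h2 => ?_⟩⟩
    have hlj : l = j := by
      by_contra hne
      exact hkl i' (j + 1) hi' ⟨by omega, by omega⟩
    subst hlj
    exact ⟨le_antisymm (hm4 k hk hkl) h1, rfl⟩

theorem box_bal_C' {a b : ℕ} (ha : 1 ≤ a) (hb : 1 ≤ b) {A : Finset (ℕ × ℕ)}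
    (hA : Anti prd (range a ×ˢ range b) A) :
    box_bal_Col (rev prd (range a ×ˢ range b) A) (b - 1) ↔ ¬ box_bal_Row A 0 := by
  constructor
  · rintro ⟨i, hi⟩ ⟨v, hv⟩
    obtain ⟨⟨h1, h2⟩, h3, h4⟩ := (box_bal_mem i (b - 1)).1 hi
    have hvP : 0 < a ∧ v < b := by simpa using hA.1 hv
    exact h3 0 v hv ⟨by omega, by omega⟩
  · intro h
    have hD : ∀ u v, (u, v) ∈ A → ¬ (u ≤ 0 ∧ v ≤ b - 1) := by
      rintro u v huv ⟨h1, h2⟩
      have : u = 0 := by omega
      subst this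
      exact h ⟨v, huv⟩
    obtain ⟨m, hm1, hm2, hm3, hm4⟩ := box_bal_max
      (fun i => ∀ u v, (u, v) ∈ A → ¬ (u ≤ i ∧ v ≤ b - 1)) a 0 (by omega) hD
    refine ⟨m, (box_bal_mem m (b - 1)).2 ⟨⟨hm2, by omega⟩, hm3, fun k l hk hl hkl h1 h2 => ?_⟩⟩
    have hlj : l = b - 1 := by omega
    subst hlj
    exact ⟨le_antisymm (hm4 k hk hkl) h1, rfl⟩

open Classical in
theorem box_bal_cardRow {a b : ℕ} {B : Finset (ℕ × ℕ)}
    (hB : Anti prd (range a ×ˢ range b) B) :
    ∑ i ∈ range a, (if box_bal_Row B i then 1 else 0) = B.card := by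
  rw [← Finset.card_filter]
  have hinj : Set.InjOn Prod.fst (B : Set (ℕ × ℕ)) := by
    intro x hx y hy hxy
    rcases le_total x.2 y.2 with h | h
    · exact hB.2 x hx y hy ⟨le_of_eq hxy, h⟩
    · exact (hB.2 y hy x hx ⟨le_of_eq hxy.symm, h⟩).symm
  rw [← Finset.card_image_of_injOn hinj]
  congr 1
  ext i
  rw [Finset.mem_filter, Finset.mem_range, Finset.mem_image]
  constructor
  · rintro ⟨_, j, hj⟩
    exact ⟨(i, j), hj, rfl⟩
  · rintro ⟨x, hx, rfl⟩
    have hxP : x.1 < a ∧ x.2 < b := by simpa using hB.1 hx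
    exact ⟨hxP.1, x.2, hx⟩

open Classical in
theorem box_bal_cardCol {a b : ℕ} {B : Finset (ℕ × ℕ)}
    (hB : Anti prd (range a ×ˢ range b) B) :
    ∑ j ∈ range b, (if box_bal_Col B j then 1 else 0) = B.card := by
  rw [← Finset.card_filter]
  have hinj : Set.InjOn Prod.snd (B : Set (ℕ × ℕ)) := by
    intro x hx y hy hxy
    rcases le_total x.1 y.1 with h | h
    · exact hB.2 x hx y hy ⟨h, le_of_eq hxy⟩
    · exact (hB.2 y hy x hx ⟨h, le_of_eq hxy.symm⟩).symm
  rw [← Finset.card_image_of_injOn hinj]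
  congr 1
  ext j
  rw [Finset.mem_filter, Finset.mem_range, Finset.mem_image]
  constructor
  · rintro ⟨_, i, hi⟩
    exact ⟨(i, j), hi, rfl⟩
  · rintro ⟨x, hx, rfl⟩
    have hxP : x.1 < a ∧ x.2 < b := by simpa using hB.1 hx
    exact ⟨hxP.2, x.1, hx⟩

theorem box_bal (a b : ℕ) (ha : 1 ≤ a) (hb : 1 ≤ b) : Bal prd (range a ×ˢ range b) (a + b) := by
  classical
  intro A hA
  have hAt : ∀ t, Anti prd (range a ×ˢ range b) ((rev prd (range a ×ˢ range b))^[t] A) :=
    fun t => iter_anti hA t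
  have hstep : ∀ t, (rev prd (range a ×ˢ range b))^[t + 1] A
      = rev prd (range a ×ˢ range b) ((rev prd (range a ×ˢ range b))^[t] A) :=
    fun t => Function.iterate_succ_apply' _ _ _
  let w : ℕ → ℕ → ℕ := fun t s =>
    if s < a then (if box_bal_Row ((rev prd (range a ×ˢ range b))^[t] A) s then 1 else 0)
    else (if box_bal_Col ((rev prd (range a ×ˢ range b))^[t] A) (s - a) then 0 else 1)
  have hw1 : ∀ t s, s < a → w t s
      = if box_bal_Row ((rev prd (range a ×ˢ range b))^[t] A) s then 1 else 0 := by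
    intro t s hs
    show (if s < a then _ else _) = _
    rw [if_pos hs]
  have hw2 : ∀ t s, w t (a + s)
      = if box_bal_Col ((rev prd (range a ×ˢ range b))^[t] A) s then 0 else 1 := by
    intro t s
    show (if a + s < a then _ else _) = _
    rw [if_neg (by omega), Nat.add_sub_cancel_left]
  have h1 : ∀ t s, s + 1 < a + b → w (t + 1) s = w t (s + 1) := by
    intro t s hs
    rcases Nat.lt_or_ge (s + 1) a with h | h
    · rw [hw1 _ _ (by omega), hw1 _ _ h, hstep]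
      exact if_congr (box_bal_R (hAt t) s h) rfl rfl
    · rcases Nat.lt_or_ge s a with h' | h'
      · have e : s = a - 1 := by omega
        rw [hw1 _ _ h', show s + 1 = a + 0 by omega, hw2, hstep, e]
        by_cases hc : box_bal_Col ((rev prd (range a ×ˢ range b))^[t] A) 0
        · rw [if_neg (fun h => ((box_bal_R' ha hb (hAt t)).1 h) hc), if_pos hc]
        · rw [if_pos ((box_bal_R' ha hb (hAt t)).2 hc), if_neg hc]
      · obtain ⟨k, rfl⟩ := Nat.exists_eq_add_of_le h'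
        rw [hw2, add_assoc, hw2, hstep]
        exact if_congr (box_bal_C (hAt t) k (by omega)) rfl rfl
  have h2 : ∀ t, w (t + 1) (a + b - 1) = w t 0 := by
    intro t
    rw [show a + b - 1 = a + (b - 1) by omega, hw2, hw1 _ _ (by omega), hstep]
    by_cases hc : box_bal_Row ((rev prd (range a ×ˢ range b))^[t] A) 0
    · rw [if_neg (fun h => ((box_bal_C' ha hb (hAt t)).1 h) hc), if_pos hc]
    · rw [if_pos ((box_bal_C' ha hb (hAt t)).2 hc), if_neg hc]
  have hcard : ∀ t, ((rev prd (range a ×ˢ range b))^[t] A).card = ∑ s ∈ range a, w t s := by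
    intro t
    rw [← box_bal_cardRow (hAt t)]
    exact Finset.sum_congr rfl fun s hs => (hw1 t s (Finset.mem_range.1 hs)).symm
  have hsum0 : ∑ j ∈ range (a + b), w 0 j = b := by
    rw [Finset.sum_range_add, ← hcard 0]
    have e1 : ∑ x ∈ range b, w 0 (a + x) + ∑ j ∈ range b,
        (if box_bal_Col ((rev prd (range a ×ˢ range b))^[0] A) j then 1 else 0) = b := by
      rw [← Finset.sum_add_distrib]
      rw [Finset.sum_congr rfl (g := fun _ => 1)]
      · simp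
      · intro x _
        rw [hw2]
        split_ifs <;> rfl
    rw [box_bal_cardCol (hAt 0)] at e1
    omega
  have : ∑ t ∈ range (a + b), ((rev prd (range a ×ˢ range b))^[t] A).card
      = ∑ s ∈ range a, ∑ t ∈ range (a + b), w t s := by
    rw [Finset.sum_comm]
    exact Finset.sum_congr rfl fun t _ => hcard t
  rw [this, Finset.sum_congr rfl (fun s hs => (rot_sum (a + b) w h1 h2 s
    (by have := Finset.mem_range.1 hs; omega)).trans hsum0)]
  rw [Finset.sum_const, Finset.card_range, Finset.card_product, Finset.card_range,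
    Finset.card_range, smul_eq_mul]

end Pool.Agent.Helper645_PA
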