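import Pool.Agent.Helper645_PA.Defs
import Pool.Agent.Helper282_TM.Gen

set_option autoImplicit false

/-!
# The three kinds of posets in the classical types (MP_f8f4ef_co)
-/

namespace Pool.Agent.Helper645_PA

open Finset Pool.Agent.Helper282_TM

section transfer

variable {V V' : Type} {r : V → V → Prop} {r' : V' → V' → Prop} {P : Finset V} {P' : Finset V'}

open Classical in
theorem rev_image (f : V' → V) (h1 : ∀ x, x ∈ P ↔ ∃ y ∈ P', f y = x)
    (h2 : ∀ x ∈ P', ∀ y ∈ P', f x = f y → x = y)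
    (h3 : ∀ x ∈ P', ∀ y ∈ P', (r (f x) (f y) ↔ r' x y)) {A : Finset V'} (hA : A ⊆ P') :
    rev r P (A.image f) = (rev r' P' A).image f := by
  have hD : ∀ y ∈ P', (∀ a ∈ A.image f, ¬ r a (f y)) ↔ ∀ a ∈ A, ¬ r' a y := by
    intro y hy
    constructor
    · intro h a ha hr
      exact h (f a) (Finset.mem_image_of_mem f ha) ((h3 a (hA ha) y hy).2 hr)
    · intro h a ha hr
      obtain ⟨b, hb, rfl⟩ := Finset.mem_image.1 ha
      exact h b hb ((h3 b (hA hb) y hy).1 hr)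
  ext x
  rw [mem_rev, Finset.mem_image]
  constructor
  · rintro ⟨hx, hxa, hxm⟩
    obtain ⟨y, hy, rfl⟩ := (h1 x).1 hx
    refine ⟨y, mem_rev.2 ⟨hy, (hD y hy).1 hxa, fun z hz hza hyz => ?_⟩, rfl⟩
    exact h2 z hz y hy (hxm (f z) ((h1 _).2 ⟨z, hz, rfl⟩) ((hD z hz).2 hza) ((h3 y hy z hz).2 hyz))
  · rintro ⟨y, hy, rfl⟩
    obtain ⟨hy, hya, hym⟩ := mem_rev.1 hy
    refine ⟨(h1 _).2 ⟨y, hy, rfl⟩, (hD y hy).2 hya, fun z hz hza hyz => ?_⟩
    obtain ⟨z', hz', rfl⟩ := (h1 z).1 hz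
    rw [hym z' hz' ((hD z' hz').1 hza) ((h3 y hy z' hz').1 hyz)]

open Classical in
theorem Bal.transfer {N : ℕ} (h : Bal r' P' N) (f : V' → V)
    (h1 : ∀ x, x ∈ P ↔ ∃ y ∈ P', f y = x) (h2 : ∀ x ∈ P', ∀ y ∈ P', f x = f y → x = y)
    (h3 : ∀ x ∈ P', ∀ y ∈ P', (r (f x) (f y) ↔ r' x y)) : Bal r P N := by
  intro A hA
  set B : Finset V' := P'.filter fun y => f y ∈ A with hB
  have hBP : B ⊆ P' := Finset.filter_subset _ _
  have hAB : A = B.image f := by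
    ext x
    rw [Finset.mem_image]
    constructor
    · intro hx
      obtain ⟨y, hy, rfl⟩ := (h1 x).1 (hA.1 hx)
      exact ⟨y, Finset.mem_filter.2 ⟨hy, hx⟩, rfl⟩
    · rintro ⟨y, hy, rfl⟩
      exact (Finset.mem_filter.1 hy).2
  have hBA : Anti r' P' B := by
    refine ⟨hBP, fun x hx y hy hxy => ?_⟩
    have hx' := Finset.mem_filter.1 hx
    have hy' := Finset.mem_filter.1 hy
    exact h2 x hx'.1 y hy'.1 (hA.2 _ hx'.2 _ hy'.2 ((h3 x hx'.1 y hy'.1).2 hxy))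
  have hit : ∀ t, (rev r P)^[t] A = ((rev r' P')^[t] B).image f := by
    intro t
    induction t with
    | zero => exact hAB
    | succ t ih =>
      rw [Function.iterate_succ_apply', Function.iterate_succ_apply', ih]
      exact rev_image f h1 h2 h3 (iter_anti hBA t).1
  have hcard : ∀ C : Finset V', C ⊆ P' → (C.image f).card = C.card := by
    intro C hC
    refine Finset.card_image_of_injOn fun x hx y hy hxy => ?_
    exact h2 x (hC hx) y (hC hy) hxy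
  have hP : P = P'.image f := by
    ext x
    rw [h1, Finset.mem_image]
  calc ∑ t ∈ range N, ((rev r P)^[t] A).card
      = ∑ t ∈ range N, ((rev r' P')^[t] B).card := by
        refine Finset.sum_congr rfl fun t _ => ?_
        rw [hit t, hcard _ (iter_anti hBA t).1]
    _ = P'.card := h B hBA
    _ = P.card := by rw [hP, hcard P' (Finset.Subset.refl _)]

end transfer

section std

variable {n : ℕ}

/-- the height -/
def Ht (v : Fin n → ℤ) : ℤ := ∑ i, v i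

theorem Ht_mono {v w : Fin n → ℤ} (h : v ≤ w) : Ht v ≤ Ht w := Finset.sum_le_sum fun i _ => h i

/-- What has to be proved for the node `a`: `Δ(1)` is a finite set `P`, its greatest height is `d`,
and any `d + 1` consecutive iterates of an antichain have together as many elements as `P`. -/
def Std (A : Matrix (Fin n) (Fin n) ℤ) (a : Fin n) : Prop :=
  ∃ P : Finset (Fin n → ℤ), (∀ v, v ∈ P ↔ IsRoot A v ∧ v a = 1) ∧
    ∃ d : ℕ, (∃ v ∈ P, Ht v = d) ∧ (∀ v ∈ P, Ht v ≤ d) ∧ Bal (fun x y => x ≤ y) P (d + 1)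

theorem boxStd (hbox : ∀ p q : ℕ, 1 ≤ p → 1 ≤ q → Bal prd (range p ×ˢ range q) (p + q))
    {A : Matrix (Fin n) (Fin n) ℤ} {a : Fin n} (V : ℕ → ℕ → Fin n → ℤ) (xb ya yb : ℕ)
    (hy : ya ≤ yb)
    (hP : ∀ v, (IsRoot A v ∧ v a = 1) ↔ ∃ x y, x ≤ xb ∧ ya ≤ y ∧ y ≤ yb ∧ v = V x y)
    (hle : ∀ x y x' y', x ≤ xb → ya ≤ y → y ≤ yb → x' ≤ xb → ya ≤ y' → y' ≤ yb →
      (V x y ≤ V x' y' ↔ x' ≤ x ∧ y ≤ y'))
    (hht : Ht (V 0 yb) = ((xb + (yb - ya) + 1 : ℕ) : ℤ)) : Std A a := by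
  classical
  have hinj : ∀ x y x' y', x ≤ xb → ya ≤ y → y ≤ yb → x' ≤ xb → ya ≤ y' → y' ≤ yb →
      V x y = V x' y' → x = x' ∧ y = y' := by
    intro x y x' y' h1 h3 h4 h5 h7 h8 h
    have e1 := (hle x y x' y' h1 h3 h4 h5 h7 h8).mp h.le
    have e2 := (hle x' y' x y h5 h7 h8 h1 h3 h4).mp h.ge
    omega
  set f : ℕ × ℕ → (Fin n → ℤ) := fun z => V (xb - z.1) (ya + z.2) with hf
  set P' : Finset (ℕ × ℕ) := range (xb + 1) ×ˢ range (yb - ya + 1) with hP'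
  have hmem : ∀ z : ℕ × ℕ, z ∈ P' ↔ z.1 < xb + 1 ∧ z.2 < yb - ya + 1 := by
    intro z
    rw [hP', Finset.mem_product, Finset.mem_range, Finset.mem_range]
  have hf1 : ∀ x, x ∈ P'.image f ↔ ∃ y ∈ P', f y = x := fun x => Finset.mem_image
  have hPP : ∀ v, v ∈ P'.image f ↔ IsRoot A v ∧ v a = 1 := by
    intro v
    rw [hf1, hP]
    constructor
    · rintro ⟨z, hz, rfl⟩
      rw [hmem] at hz
      exact ⟨xb - z.1, ya + z.2, by omega, by omega, by omega, rfl⟩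
    · rintro ⟨x, y, h1, h2, h3, rfl⟩
      refine ⟨(xb - x, y - ya), (hmem _).2 ⟨by simp only; omega, by simp only; omega⟩, ?_⟩
      simp only [hf]
      congr 1 <;> omega
  refine ⟨P'.image f, hPP, xb + (yb - ya) + 1, ⟨V 0 yb, ?_, hht⟩, ?_, ?_⟩
  · rw [hPP, hP]
    exact ⟨0, yb, by omega, hy, le_rfl, rfl⟩
  · intro v hv
    rw [hPP, hP] at hv
    obtain ⟨x, y, h1, h2, h3, rfl⟩ := hv
    rw [← hht]
    exact Ht_mono ((hle x y 0 yb h1 h2 h3 (by omega) hy le_rfl).2 ⟨by omega, h3⟩)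
  · have hB := hbox (xb + 1) (yb - ya + 1) (by omega) (by omega)
    have e : xb + (yb - ya) + 1 + 1 = xb + 1 + (yb - ya + 1) := by omega
    rw [e]
    refine hB.transfer f hf1 ?_ ?_
    · rintro ⟨i, j⟩ hx ⟨i', j'⟩ hy' h
      rw [hmem] at hx hy'
      simp only [hf] at h hx hy'
      have := hinj _ _ _ _ (by omega) (by omega) (by omega) (by omega) (by omega) (by omega) h
      rw [Prod.mk.injEq]
      omega
    · rintro ⟨i, j⟩ hx ⟨i', j'⟩ hy'
      rw [hmem] at hx hy'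
      simp only [hf, prd] at hx hy' ⊢
      rw [hle _ _ _ _ (by omega) (by omega) (by omega) (by omega) (by omega) (by omega)]
      omega

theorem stairStd (hstair : ∀ q : ℕ, 1 ≤ q →
      Bal prd ((range q ×ˢ range q).filter fun x => x.1 ≤ x.2) (2 * q))
    {A : Matrix (Fin n) (Fin n) ℤ} {a : Fin n} (V : ℕ → ℕ → Fin n → ℤ) (δ z1 : ℕ) (hδ : δ ≤ z1)
    (hP : ∀ v, (IsRoot A v ∧ v a = 1) ↔ ∃ x y, x + δ ≤ y ∧ y ≤ z1 ∧ v = V x y)
    (hle : ∀ x y x' y', x + δ ≤ y → y ≤ z1 → x' + δ ≤ y' → y' ≤ z1 →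
      (V x y ≤ V x' y' ↔ x' ≤ x ∧ y' ≤ y))
    (hht : Ht (V 0 δ) = ((2 * (z1 - δ) + 1 : ℕ) : ℤ)) : Std A a := by
  classical
  have hinj : ∀ x y x' y', x + δ ≤ y → y ≤ z1 → x' + δ ≤ y' → y' ≤ z1 →
      V x y = V x' y' → x = x' ∧ y = y' := by
    intro x y x' y' h1 h3 h4 h5 h
    have e1 := (hle x y x' y' h1 h3 h4 h5).mp h.le
    have e2 := (hle x' y' x y h4 h5 h1 h3).mp h.ge
    omega
  set f : ℕ × ℕ → (Fin n → ℤ) := fun z => V (z1 - δ - z.2) (z1 - z.1) with hf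
  set P' : Finset (ℕ × ℕ) :=
    (range (z1 - δ + 1) ×ˢ range (z1 - δ + 1)).filter (fun x => x.1 ≤ x.2) with hP'
  have hmem : ∀ z : ℕ × ℕ, z ∈ P' ↔ z.1 ≤ z.2 ∧ z.2 < z1 - δ + 1 := by
    intro z
    rw [hP', Finset.mem_filter, Finset.mem_product, Finset.mem_range, Finset.mem_range]
    omega
  have hf1 : ∀ x, x ∈ P'.image f ↔ ∃ y ∈ P', f y = x := fun x => Finset.mem_image
  have hPP : ∀ v, v ∈ P'.image f ↔ IsRoot A v ∧ v a = 1 := by
    intro v
    rw [hf1, hP]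
    constructor
    · rintro ⟨z, hz, rfl⟩
      rw [hmem] at hz
      exact ⟨z1 - δ - z.2, z1 - z.1, by omega, by omega, rfl⟩
    · rintro ⟨x, y, h1, h2, rfl⟩
      refine ⟨(z1 - y, z1 - δ - x), (hmem _).2 ⟨by simp only; omega, by simp only; omega⟩, ?_⟩
      simp only [hf]
      congr 1 <;> omega
  refine ⟨P'.image f, hPP, 2 * (z1 - δ) + 1, ⟨V 0 δ, ?_, hht⟩, ?_, ?_⟩
  · rw [hPP, hP]
    exact ⟨0, δ, by omega, hδ, rfl⟩
  · intro v hv
    rw [hPP, hP] at hv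
    obtain ⟨x, y, h1, h2, rfl⟩ := hv
    rw [← hht]
    exact Ht_mono ((hle x y 0 δ h1 h2 (by omega) hδ).2 ⟨by omega, by omega⟩)
  · have hB := hstair (z1 - δ + 1) (by omega)
    have e : 2 * (z1 - δ) + 1 + 1 = 2 * (z1 - δ + 1) := by omega
    rw [e]
    refine hB.transfer f hf1 ?_ ?_
    · rintro ⟨i, j⟩ hx ⟨i', j'⟩ hy' h
      rw [hmem] at hx hy'
      simp only [hf] at h hx hy'
      have := hinj _ _ _ _ (by omega) (by omega) (by omega) (by omega) h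
      rw [Prod.mk.injEq]
      omega
    · rintro ⟨i, j⟩ hx ⟨i', j'⟩ hy'
      rw [hmem] at hx hy'
      simp only [hf, prd] at hx hy' ⊢
      rw [hle _ _ _ _ (by omega) (by omega) (by omega) (by omega)]
      omega

theorem kStd (hK : ∀ k m : ℕ, 1 ≤ k → 2 ≤ m →
      Bal (kpr m) (range k ×ˢ range (2 * m)) (k + (2 * m - 1)))
    {A : Matrix (Fin n) (Fin n) ℤ} {a : Fin n} (V : ℕ → ℕ → Fin n → ℤ) (xb m : ℕ) (hm : 2 ≤ m)
    (hP : ∀ v, (IsRoot A v ∧ v a = 1) ↔ ∃ x y, x ≤ xb ∧ y < 2 * m ∧ v = V x y)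
    (hle : ∀ x y x' y', x ≤ xb → y < 2 * m → x' ≤ xb → y' < 2 * m →
      (V x y ≤ V x' y' ↔ x' ≤ x ∧ kle m y y'))
    (hht : Ht (V 0 (2 * m - 1)) = ((xb + (2 * m - 1) : ℕ) : ℤ)) : Std A a := by
  classical
  have hkle : ∀ p q, kle m p q → p ≤ q := by
    rintro p q (h | ⟨h, _⟩) <;> omega
  have hinj : ∀ x y x' y', x ≤ xb → y < 2 * m → x' ≤ xb → y' < 2 * m →
      V x y = V x' y' → x = x' ∧ y = y' := by
    intro x y x' y' h1 h3 h4 h5 h
    have e1 := (hle x y x' y' h1 h3 h4 h5).mp h.le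
    have e2 := (hle x' y' x y h4 h5 h1 h3).mp h.ge
    have := hkle _ _ e1.2
    have := hkle _ _ e2.2
    omega
  set f : ℕ × ℕ → (Fin n → ℤ) := fun z => V (xb - z.1) z.2 with hf
  set P' : Finset (ℕ × ℕ) := range (xb + 1) ×ˢ range (2 * m) with hP'
  have hmem : ∀ z : ℕ × ℕ, z ∈ P' ↔ z.1 < xb + 1 ∧ z.2 < 2 * m := by
    intro z
    rw [hP', Finset.mem_product, Finset.mem_range, Finset.mem_range]
  have hf1 : ∀ x, x ∈ P'.image f ↔ ∃ y ∈ P', f y = x := fun x => Finset.mem_image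
  have hPP : ∀ v, v ∈ P'.image f ↔ IsRoot A v ∧ v a = 1 := by
    intro v
    rw [hf1, hP]
    constructor
    · rintro ⟨z, hz, rfl⟩
      rw [hmem] at hz
      exact ⟨xb - z.1, z.2, by omega, hz.2, rfl⟩
    · rintro ⟨x, y, h1, h2, rfl⟩
      refine ⟨(xb - x, y), (hmem _).2 ⟨by simp only; omega, h2⟩, ?_⟩
      simp only [hf]
      congr 1
      omega
  refine ⟨P'.image f, hPP, xb + (2 * m - 1), ⟨V 0 (2 * m - 1), ?_, hht⟩, ?_, ?_⟩
  · rw [hPP, hP]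
    exact ⟨0, 2 * m - 1, by omega, by omega, rfl⟩
  · intro v hv
    rw [hPP, hP] at hv
    obtain ⟨x, y, h1, h2, rfl⟩ := hv
    rw [← hht]
    refine Ht_mono ((hle x y 0 (2 * m - 1) h1 h2 (by omega) (by omega)).2 ⟨by omega, ?_⟩)
    by_cases hy : y = 2 * m - 1
    · exact Or.inl hy
    · exact Or.inr ⟨by omega, by omega⟩
  · have hB := hK (xb + 1) m (by omega) hm
    have e : xb + (2 * m - 1) + 1 = xb + 1 + (2 * m - 1) := by omega
    rw [e]
    refine hB.transfer f hf1 ?_ ?_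
    · rintro ⟨i, j⟩ hx ⟨i', j'⟩ hy' h
      rw [hmem] at hx hy'
      simp only [hf] at h hx hy'
      have := hinj _ _ _ _ (by omega) (by omega) (by omega) (by omega) h
      rw [Prod.mk.injEq]
      omega
    · rintro ⟨i, j⟩ hx ⟨i', j'⟩ hy'
      rw [hmem] at hx hy'
      simp only [hf, kpr] at hx hy' ⊢
      rw [hle _ _ _ _ (by omega) (by omega) (by omega) (by omega)]
      constructor
      · rintro ⟨h1, h2⟩; exact ⟨by omega, h2⟩
      · rintro ⟨h1, h2⟩; exact ⟨by omega, h2⟩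

end std

end Pool.Agent.Helper645_PA
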