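import Mathlib

set_option autoImplicit false

/-!
# The reverse operator on antichains (MP_f8f4ef_co): definitions
-/

namespace Pool.Agent.Helper645_PA

open Finset

open Classical in
/-- The reverse operator of the finite poset `(P, r)`: the maximal elements of the complement of the
upper ideal generated by `A`. -/
noncomputable def rev {V : Type} (r : V → V → Prop) (P A : Finset V) : Finset V :=
  P.filter fun x => (∀ a ∈ A, ¬ r a x) ∧ ∀ y ∈ P, (∀ a ∈ A, ¬ r a y) → r x y → y = x

/-- `A` is an antichain of `(P, r)`. -/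
def Anti {V : Type} (r : V → V → Prop) (P A : Finset V) : Prop :=
  A ⊆ P ∧ ∀ x ∈ A, ∀ y ∈ A, r x y → x = y

/-- For every antichain the sizes of `N` consecutive iterates add up to the number of elements. -/
def Bal {V : Type} (r : V → V → Prop) (P : Finset V) (N : ℕ) : Prop :=
  ∀ A : Finset V, Anti r P A → ∑ t ∈ range N, ((rev r P)^[t] A).card = P.card

/-- the product order -/
def prd (x y : ℕ × ℕ) : Prop := x.1 ≤ y.1 ∧ x.2 ≤ y.2

/-- The order of the poset `K_m` on `{0, …, 2m-1}`: a chain, except that `m - 1` and `m` are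
incomparable. -/
def kle (m a b : ℕ) : Prop := a = b ∨ (a < b ∧ ¬ (a + 1 = m ∧ b = m))

/-- the order of the product of a chain and `K_m` -/
def kpr (m : ℕ) (x y : ℕ × ℕ) : Prop := x.1 ≤ y.1 ∧ kle m x.2 y.2

theorem mem_rev {V : Type} {r : V → V → Prop} {P A : Finset V} {x : V} :
    x ∈ rev r P A ↔
      x ∈ P ∧ (∀ a ∈ A, ¬ r a x) ∧ ∀ y ∈ P, (∀ a ∈ A, ¬ r a y) → r x y → y = x := by
  classical
  simp [rev]

theorem rev_anti {V : Type} (r : V → V → Prop) (P A : Finset V) : Anti r P (rev r P A) := by
  refine ⟨fun x hx => (mem_rev.1 hx).1, fun x hx y hy hxy => ?_⟩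
  exact ((mem_rev.1 hx).2.2 y (mem_rev.1 hy).1 (mem_rev.1 hy).2.1 hxy).symm

theorem iter_anti {V : Type} {r : V → V → Prop} {P A : Finset V} (hA : Anti r P A) (t : ℕ) :
    Anti r P ((rev r P)^[t] A) := by
  cases t with
  | zero => exact hA
  | succ t => rw [Function.iterate_succ_apply']; exact rev_anti _ _ _

/-- rotation of words of length `N` -/
theorem rot_sum (N : ℕ) (w : ℕ → ℕ → ℕ) (h1 : ∀ t s, s + 1 < N → w (t + 1) s = w t (s + 1))
    (h2 : ∀ t, w (t + 1) (N - 1) = w t 0) (s : ℕ) (hs : s < N) :
    ∑ t ∈ range N, w t s = ∑ j ∈ range N, w 0 j := by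
  -- first for the position 0
  have key : ∀ t s, s < N → w t s = w 0 ((s + t) % N) := by
    intro t
    induction t with
    | zero => intro s hs; rw [Nat.add_zero, Nat.mod_eq_of_lt hs]
    | succ t ih =>
      intro s hs
      rcases Nat.lt_or_ge (s + 1) N with h | h
      · rw [h1 t s h, ih (s + 1) h]
        congr 2
        omega
      · have : s = N - 1 := by omega
        subst this
        rw [h2 t, ih 0 (by omega)]
        congr 1
        rw [show N - 1 + (t + 1) = 0 + t + N by omega, Nat.add_mod_right]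
  have e : ∑ t ∈ range N, w t s = ∑ t ∈ range N, w 0 ((s + t) % N) :=
    Finset.sum_congr rfl fun t _ => key t s hs
  rw [e]
  refine Finset.sum_nbij' (fun t => (s + t) % N) (fun j => (j + (N - s)) % N) ?_ ?_ ?_ ?_ ?_
  · intro t _; exact Finset.mem_range.2 (Nat.mod_lt _ (by omega))
  · intro t _; exact Finset.mem_range.2 (Nat.mod_lt _ (by omega))
  · intro t ht
    have ht' := Finset.mem_range.1 ht
    rw [Nat.mod_add_mod, show s + t + (N - s) = t + N by omega, Nat.add_mod_right,
      Nat.mod_eq_of_lt ht']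
  · intro t ht
    have ht' := Finset.mem_range.1 ht
    rw [Nat.add_mod_mod, show s + (t + (N - s)) = t + N by omega, Nat.add_mod_right,
      Nat.mod_eq_of_lt ht']
  · intro t _; rfl

end Pool.Agent.Helper645_PA
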