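import Pool.Agent.Helper645_PA.Cases
import Pool.Agent.Helper282_TM.ExcSound

set_option autoImplicit false

/-!
# An algorithm for a given poset (MP_f8f4ef_co)
-/

namespace Pool.Agent.Helper645_PA

open Finset Pool.Agent.Helper282_TM

/-- Evaluation of the argument before the application. -/
noncomputable def force {α : Type} (x : ℕ) (f : ℕ → α) : α :=
  Nat.rec (motive := fun _ => α) (f 0) (fun k _ => f (Nat.succ k)) x

theorem force_eq {α : Type} (x : ℕ) (f : ℕ → α) : force x f = f x := by
  cases x <;> rfl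

/-- One step of the reverse operator on complements of upper ideals. -/
noncomputable def S (full : ℕ) (l : List (ℕ × ℕ × ℕ)) : ℕ → ℕ → ℕ → ℕ :=
  List.rec (fun _ acc cnt => Nat.add (Nat.mul (Nat.sub full acc) 128) cnt)
    (fun hd _ ih c acc cnt => cond (Nat.beq (Nat.land hd.2.2 c) hd.2.1)
      (ih c (Nat.lor acc hd.2.2) (Nat.succ cnt)) (ih c acc cnt)) l

/-- `N` steps -/
noncomputable def It (full m c0 : ℕ) (D : List (ℕ × ℕ × ℕ)) (N : ℕ) : ℕ → ℕ → Bool :=
  Nat.rec (fun c tot => Nat.beq c c0 && Nat.beq tot m)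
    (fun _ ih c tot => force (S full D c 0 0) fun s =>
      force (Nat.div s 128) fun c' => ih c' (Nat.add tot (Nat.mod s 128))) N

/-- All upper ideals. -/
noncomputable def En (leaf : ℕ → Bool) (l : List (ℕ × ℕ × ℕ)) : ℕ → Bool :=
  List.rec (fun mask => force mask leaf)
    (fun hd _ ih mask => ih mask && cond (Nat.beq (Nat.land hd.1 mask) hd.1)
      (ih (Nat.add mask hd.2.1)) true) l

/-! ### Masks -/

theorem lor_bs (s t : Finset ℕ) : Nat.lor (bs s) (bs t) = bs (s ∪ t) := by
  change bs s ||| bs t = _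
  apply Nat.eq_of_testBit_eq
  intro j
  rw [Nat.testBit_or, Bool.eq_iff_iff, Bool.or_eq_true, testBit_bs, testBit_bs, testBit_bs,
    Finset.mem_union]

theorem land_bs' (s t : Finset ℕ) : Nat.land (bs s) (bs t) = bs (s ∩ t) := by
  change bs s &&& bs t = _
  apply Nat.eq_of_testBit_eq
  intro j
  rw [Nat.testBit_and, Bool.eq_iff_iff, Bool.and_eq_true, testBit_bs, testBit_bs, testBit_bs,
    Finset.mem_inter]

theorem bs_sub {s t : Finset ℕ} (h : t ⊆ s) : bs s - bs t = bs (s \ t) := by
  unfold bs
  rw [← Finset.sum_sdiff h, Nat.add_sub_cancel]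

theorem bs_single (k : ℕ) : bs {k} = 2 ^ k := by
  unfold bs
  rw [Finset.sum_singleton]

section

variable (m : ℕ) (W : ℕ → Finset ℕ)

/-- the entry of the list -/
def entry (k : ℕ) : ℕ × ℕ × ℕ := (bs ((W k).erase k), 2 ^ k, bs (W k))

/-- the entries from `k` on -/
def datl (k : ℕ) : List (ℕ × ℕ × ℕ) := (List.range' k (m - k)).map (entry W)

theorem datl_succ {k : ℕ} (hk : k < m) : datl m W k = entry W k :: datl m W (k + 1) := by
  unfold datl
  rw [show m - k = (m - (k + 1)) + 1 by omega, List.range'_succ, List.map_cons]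

theorem datl_end : datl m W m = [] := by
  unfold datl
  rw [Nat.sub_self]
  rfl

/-- the maximal elements of the complement `C` of an upper ideal -/
def Gm (C : Finset ℕ) (k : ℕ) : Finset ℕ := (Finset.Ico k m).filter fun j => W j ∩ C = {j}

theorem Gm_succ (C : Finset ℕ) {k : ℕ} (hk : k < m) :
    Gm m W C k = if W k ∩ C = {k} then insert k (Gm m W C (k + 1)) else Gm m W C (k + 1) := by
  unfold Gm
  rw [← Finset.insert_Ico_add_one_left_eq_Ico hk, Finset.filter_insert]

theorem not_mem_Gm (C : Finset ℕ) (k : ℕ) : k ∉ Gm m W C (k + 1) := by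
  unfold Gm
  rw [Finset.mem_filter, Finset.mem_Ico]
  omega

theorem Gm_end (C : Finset ℕ) : Gm m W C m = ∅ := by
  unfold Gm
  rw [Finset.Ico_self]
  rfl

theorem S_eq (C : Finset ℕ) : ∀ (d k : ℕ), k + d = m → ∀ (acc : Finset ℕ) (cnt : ℕ),
    S (bs (range m)) (datl m W k) (bs C) (bs acc) cnt =
      (bs (range m) - bs (acc ∪ (Gm m W C k).biUnion W)) * 128 +
        (cnt + (Gm m W C k).card) := by
  intro d
  induction d with
  | zero =>
    intro k hk acc cnt
    have : k = m := by omega
    subst this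
    rw [datl_end, Gm_end, Finset.biUnion_empty, Finset.union_empty, Finset.card_empty]
    rfl
  | succ d ih =>
    intro k hk acc cnt
    have hk' : k < m := by omega
    rw [datl_succ m W hk', Gm_succ m W C hk']
    have e : S (bs (range m)) (entry W k :: datl m W (k + 1)) (bs C) (bs acc) cnt =
        cond (Nat.beq (Nat.land (bs (W k)) (bs C)) (2 ^ k))
          (S (bs (range m)) (datl m W (k + 1)) (bs C) (Nat.lor (bs acc) (bs (W k))) (cnt + 1))
          (S (bs (range m)) (datl m W (k + 1)) (bs C) (bs acc) cnt) := rfl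
    rw [e, lor_bs, land_bs', ih (k + 1) (by omega), ih (k + 1) (by omega)]
    by_cases h : W k ∩ C = {k}
    · rw [if_pos h, h, bs_single]
      have h1 : Nat.beq (2 ^ k) (2 ^ k) = true := Nat.beq_eq.mpr rfl
      rw [h1, cond_true, Finset.biUnion_insert, Finset.card_insert_of_notMem (not_mem_Gm m W C k),
        Finset.union_assoc]
      omega
    · rw [if_neg h]
      have h1 : Nat.beq (bs (W k ∩ C)) (2 ^ k) = false := by
        rw [← Bool.not_eq_true, Nat.beq_eq, ← bs_single]
        exact fun h2 => h (bs_inj h2)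
      rw [h1, cond_false]

/-- the next complement -/
def nx (C : Finset ℕ) : Finset ℕ := range m \ (Gm m W C 0).biUnion W

theorem S_eq' (hW : ∀ k < m, W k ⊆ range m) (C : Finset ℕ) :
    S (bs (range m)) (datl m W 0) (bs C) 0 0 =
      bs (nx m W C) * 128 + (Gm m W C 0).card := by
  have h := S_eq m W C m 0 (by omega) ∅ 0
  have e : bs ∅ = 0 := rfl
  rw [e, Finset.empty_union, bs_sub, Nat.zero_add] at h
  · exact h
  · intro j hj
    obtain ⟨k, hk, hjk⟩ := Finset.mem_biUnion.1 hj
    refine hW k ?_ hjk
    unfold Gm at hk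
    exact (Finset.mem_Ico.1 (Finset.mem_filter.1 hk).1).2

theorem card_Gm (C : Finset ℕ) : (Gm m W C 0).card ≤ m := by
  unfold Gm
  refine (Finset.card_filter_le _ _).trans ?_
  rw [Nat.card_Ico]
  omega

theorem It_eq (hW : ∀ k < m, W k ⊆ range m) (hm : m < 128) (c0 : ℕ) (N : ℕ) :
    ∀ (C : Finset ℕ) (tot : ℕ),
      It (bs (range m)) m c0 (datl m W 0) N (bs C) tot = true ↔
        bs ((nx m W)^[N] C) = c0 ∧
          tot + ∑ t ∈ range N, (Gm m W ((nx m W)^[t] C) 0).card = m := by
  induction N with
  | zero =>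
    intro C tot
    have e : It (bs (range m)) m c0 (datl m W 0) 0 (bs C) tot =
        (Nat.beq (bs C) c0 && Nat.beq tot m) := rfl
    rw [e, Bool.and_eq_true, Nat.beq_eq, Nat.beq_eq]
    simp
  | succ N ih =>
    intro C tot
    have e : It (bs (range m)) m c0 (datl m W 0) (N + 1) (bs C) tot =
        force (S (bs (range m)) (datl m W 0) (bs C) 0 0) fun s =>
          force (s / 128) fun c' =>
            It (bs (range m)) m c0 (datl m W 0) N c' (tot + s % 128) := rfl
    have h1 := card_Gm m W C
    rw [e, force_eq, force_eq, S_eq' m W hW]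
    have e1 : (bs (nx m W C) * 128 + (Gm m W C 0).card) / 128 = bs (nx m W C) := by omega
    have e2 : (bs (nx m W C) * 128 + (Gm m W C 0).card) % 128 = (Gm m W C 0).card := by omega
    rw [e1, e2, ih, Finset.sum_range_succ', Function.iterate_succ_apply]
    simp only [Function.iterate_succ_apply, Function.iterate_zero, id]
    constructor
    · rintro ⟨h2, h3⟩
      exact ⟨h2, by omega⟩
    · rintro ⟨h2, h3⟩
      exact ⟨h2, by omega⟩

theorem En_sound (hW : ∀ k < m, k ∈ W k ∧ ∀ j ∈ W k, j ≤ k) (leaf : ℕ → Bool) (J : Finset ℕ)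
    (hJm : J ⊆ range m) (hJ : ∀ k ∈ J, W k ⊆ J) :
    ∀ (d k : ℕ), k + d = m → ∀ I : Finset ℕ, I = J.filter (fun j => j < k) →
      En leaf (datl m W k) (bs I) = true → leaf (bs J) = true := by
  intro d
  induction d with
  | zero =>
    intro k hk I hI h
    have : k = m := by omega
    subst this
    rw [datl_end] at h
    have e : En leaf [] (bs I) = force (bs I) leaf := rfl
    rw [e, force_eq] at h
    have : I = J := by
      rw [hI]
      exact Finset.filter_true_of_mem fun j hj => Finset.mem_range.1 (hJm hj)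
    rwa [this] at h
  | succ d ih =>
    intro k hk I hI h
    have hk' : k < m := by omega
    rw [datl_succ m W hk'] at h
    have e : En leaf (entry W k :: datl m W (k + 1)) (bs I) =
        (En leaf (datl m W (k + 1)) (bs I) &&
          cond (Nat.beq (Nat.land (bs ((W k).erase k)) (bs I)) (bs ((W k).erase k)))
            (En leaf (datl m W (k + 1)) (bs I + 2 ^ k)) true) := rfl
    rw [e, Bool.and_eq_true] at h
    by_cases hkJ : k ∈ J
    · have hsub : (W k).erase k ⊆ I := by
        intro j hj
        have h1 := Finset.mem_erase.1 hj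
        rw [hI, Finset.mem_filter]
        refine ⟨hJ k hkJ h1.2, ?_⟩
        have := (hW k hk').2 j h1.2
        omega
      have h1 : Nat.beq (Nat.land (bs ((W k).erase k)) (bs I)) (bs ((W k).erase k)) = true := by
        rw [Nat.beq_eq, land_bs]
        exact hsub
      rw [h1, cond_true] at h
      have hkI : k ∉ I := by
        rw [hI, Finset.mem_filter]
        omega
      have e2 : bs I + 2 ^ k = bs (insert k I) := by
        unfold bs
        rw [Finset.sum_insert hkI, add_comm]
      rw [e2] at h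
      refine ih (k + 1) (by omega) _ ?_ h.2
      rw [hI]
      ext j
      simp only [Finset.mem_insert, Finset.mem_filter]
      constructor
      · rintro (rfl | h3)
        · exact ⟨hkJ, by omega⟩
        · exact ⟨h3.1, by omega⟩
      · rintro ⟨h3, h4⟩
        by_cases h5 : j = k
        · exact Or.inl h5
        · exact Or.inr ⟨h3, by omega⟩
    · refine ih (k + 1) (by omega) _ ?_ h.1
      rw [hI]
      ext j
      simp only [Finset.mem_filter]
      constructor
      · rintro ⟨h3, h4⟩
        exact ⟨h3, by omega⟩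
      · rintro ⟨h3, h4⟩
        refine ⟨h3, ?_⟩
        have : j ≠ k := fun h5 => hkJ (h5 ▸ h3)
        omega

/-- Soundness of the algorithm. -/
theorem bal_of_En (le : ℕ → ℕ → Prop) (hle : ∀ k < m, ∀ j < m, (le k j ↔ j ∈ W k))
    (hWm : ∀ k < m, W k ⊆ range m)
    (hW : ∀ k < m, k ∈ W k ∧ ∀ j ∈ W k, j ≤ k)
    (htr : ∀ i < m, ∀ j ∈ W i, W j ⊆ W i) (hm : m < 128) (N : ℕ)
    (h : En (fun u => force (Nat.sub (bs (range m)) u) fun c =>
      It (bs (range m)) m c (datl m W 0) N c 0) (datl m W 0) 0 = true) :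
    Bal le (range m) N := by
  classical
  intro A hA
  have hAm : ∀ a ∈ A, a < m := fun a ha => Finset.mem_range.1 (hA.1 ha)
  -- the reverse operator
  have hrev : ∀ B : Finset ℕ, B ⊆ range m →
      rev le (range m) B = Gm m W (range m \ B.biUnion W) 0 := by
    intro B hB
    have hBm : ∀ a ∈ B, a < m := fun a ha => Finset.mem_range.1 (hB ha)
    have hU : ∀ y < m, (∀ a ∈ B, ¬ le a y) ↔ y ∈ range m \ B.biUnion W := by
      intro y hy
      rw [Finset.mem_sdiff, Finset.mem_range, Finset.mem_biUnion]
      constructor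
      · intro h1
        refine ⟨hy, ?_⟩
        rintro ⟨a, ha, h2⟩
        exact h1 a ha ((hle a (hBm a ha) y hy).2 h2)
      · rintro ⟨_, h1⟩ a ha h2
        exact h1 ⟨a, ha, (hle a (hBm a ha) y hy).1 h2⟩
    ext x
    rw [mem_rev]
    unfold Gm
    rw [Finset.mem_filter, Finset.mem_Ico, Finset.mem_range]
    constructor
    · rintro ⟨hx, h1, h2⟩
      refine ⟨⟨Nat.zero_le _, hx⟩, ?_⟩
      rw [hU x hx] at h1
      ext y
      rw [Finset.mem_inter, Finset.mem_singleton]
      constructor
      · rintro ⟨h3, h4⟩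
        have hy : y < m := Finset.mem_range.1 (hWm x hx h3)
        exact h2 y (Finset.mem_range.2 hy) ((hU y hy).2 h4) ((hle x hx y hy).2 h3)
      · rintro rfl
        exact ⟨(hW y hx).1, h1⟩
    · rintro ⟨⟨_, hx⟩, h1⟩
      have hxm : x ∈ W x ∩ (range m \ B.biUnion W) := by
        rw [h1]
        exact Finset.mem_singleton_self x
      refine ⟨hx, (hU x hx).2 (Finset.mem_inter.1 hxm).2, fun y hy h2 h3 => ?_⟩
      have hy' := Finset.mem_range.1 hy
      have : y ∈ W x ∩ (range m \ B.biUnion W) :=
        Finset.mem_inter.2 ⟨(hle x hx y hy').1 h3, (hU y hy').1 h2⟩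
      rw [h1] at this
      exact Finset.mem_singleton.1 this
  have hsubU : ∀ B : Finset ℕ, B ⊆ range m → B.biUnion W ⊆ range m := by
    intro B hB j hj
    obtain ⟨k, hk, h1⟩ := Finset.mem_biUnion.1 hj
    exact hWm k (Finset.mem_range.1 (hB hk)) h1
  have hit : ∀ t, (nx m W)^[t] (range m \ A.biUnion W) =
      range m \ ((rev le (range m))^[t] A).biUnion W := by
    intro t
    induction t with
    | zero => rfl
    | succ t ih =>
      rw [Function.iterate_succ_apply', Function.iterate_succ_apply', ih, hrev _ (iter_anti hA t).1]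
      rfl
  -- the check at the leaf
  have hleaf := En_sound m W hW _ (A.biUnion W) (hsubU A hA.1) (by
    intro k hk
    obtain ⟨a, ha, h1⟩ := Finset.mem_biUnion.1 hk
    intro j hj
    exact Finset.mem_biUnion.2 ⟨a, ha, htr a (hAm a ha) k h1 hj⟩) m 0 (by omega) ∅ (by
      ext j
      simp) h
  rw [force_eq] at hleaf
  have e : Nat.sub (bs (range m)) (bs (A.biUnion W)) = bs (range m \ A.biUnion W) :=
    bs_sub (hsubU A hA.1)
  rw [e, It_eq m W hWm hm] at hleaf
  obtain ⟨h1, h2⟩ := hleaf
  have h3 := bs_inj h1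
  rw [hit N] at h3
  have h4 : ((rev le (range m))^[N] A).biUnion W = A.biUnion W := by
    have g1 := hsubU _ (iter_anti hA N).1
    have g2 := hsubU A hA.1
    ext j
    constructor
    · intro hj
      by_contra hcon
      have : j ∈ range m \ A.biUnion W := Finset.mem_sdiff.2 ⟨g1 hj, hcon⟩
      rw [← h3] at this
      exact (Finset.mem_sdiff.1 this).2 hj
    · intro hj
      by_contra hcon
      have : j ∈ range m \ ((rev le (range m))^[N] A).biUnion W := Finset.mem_sdiff.2 ⟨g2 hj, hcon⟩
      rw [h3] at this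
      exact (Finset.mem_sdiff.1 this).2 hj
  -- an antichain is determined by the upper ideal
  have key : ∀ B B' : Finset ℕ, Anti le (range m) B → Anti le (range m) B' →
      B.biUnion W = B'.biUnion W → B ⊆ B' := by
    intro B B' hB hB' he x hx
    have hxm := Finset.mem_range.1 (hB.1 hx)
    have h5 : x ∈ B'.biUnion W := by
      rw [← he]
      exact Finset.mem_biUnion.2 ⟨x, hx, (hW x hxm).1⟩
    obtain ⟨y, hy, h6⟩ := Finset.mem_biUnion.1 h5
    have hym := Finset.mem_range.1 (hB'.1 hy)
    have h7 : y ∈ B.biUnion W := by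
      rw [he]
      exact Finset.mem_biUnion.2 ⟨y, hy, (hW y hym).1⟩
    obtain ⟨z, hz, h8⟩ := Finset.mem_biUnion.1 h7
    have hzm := Finset.mem_range.1 (hB.1 hz)
    have h9 : x ∈ W z := htr z hzm y h8 h6
    have h10 : z = x := hB.2 z hz x hx ((hle z hzm x hxm).2 h9)
    subst h10
    have h11 := (hW y hym).2 z h6
    have h12 := (hW z hzm).2 y h8
    have : z = y := by omega
    rw [this]
    exact hy
  have h5 : (rev le (range m))^[N] A = A :=
    Finset.Subset.antisymm (key _ _ (iter_anti hA N) hA h4) (key _ _ hA (iter_anti hA N) h4.symm)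
  have h6 : ∑ t ∈ range N, ((rev le (range m))^[t + 1] A).card = m := by
    rw [Nat.zero_add] at h2
    refine Eq.trans (Finset.sum_congr rfl fun t _ => ?_) h2
    rw [Function.iterate_succ_apply', hrev _ (iter_anti hA t).1, ← hit t]
  rw [Finset.card_range]
  have h7 := Finset.sum_range_succ' (fun t => ((rev le (range m))^[t] A).card) N
  have h8 := Finset.sum_range_succ (fun t => ((rev le (range m))^[t] A).card) N
  rw [h5] at h8
  rw [Function.iterate_zero, id] at h7
  rw [h6] at h7
  omega

end

end Pool.Agent.Helper645_PA
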