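import Pool.Agent.Helper645_PA.ExcStd
import Pool.Agent.Helper282_TM.TypeE7

set_option autoImplicit false

/-!
# Type E7 (MP_f8f4ef_co)
-/

namespace Pool.Agent.Helper645_PA

open Finset Pool.Agent.Helper282_TM CartanMatrix

set_option maxRecDepth 1000000 in
theorem chk7_0 : chkP RE7 0 16 = true := by decide +kernel

set_option maxRecDepth 1000000 in
theorem chk7_1 : chkP RE7 1 13 = true := by decide +kernel

set_option maxRecDepth 1000000 in
theorem chk7_2 : chkP RE7 2 10 = true := by decide +kernel

set_option maxRecDepth 1000000 in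
theorem chk7_3 : chkP RE7 3 7 = true := by decide +kernel

set_option maxRecDepth 1000000 in
theorem chk7_4 : chkP RE7 4 9 = true := by decide +kernel

set_option maxRecDepth 1000000 in
theorem chk7_5 : chkP RE7 5 12 = true := by decide +kernel

set_option maxRecDepth 1000000 in
theorem chk7_6 : chkP RE7 6 17 = true := by decide +kernel

theorem stdE7 (a : Fin 7) : Std E₇ a := by
  have hR := rok_of_chkR colsOKE7 diagE7 chkRE7
  fin_cases a
  · exact std_of_chkP hR 0 16 chk7_0
  · exact std_of_chkP hR 1 13 chk7_1
  · exact std_of_chkP hR 2 10 chk7_2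
  · exact std_of_chkP hR 3 7 chk7_3
  · exact std_of_chkP hR 4 9 chk7_4
  · exact std_of_chkP hR 5 12 chk7_5
  · exact std_of_chkP hR 6 17 chk7_6

end Pool.Agent.Helper645_PA
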