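import Pool.Agent.Helper645_PA.ExcStd
import Pool.Agent.Helper282_TM.TypeE8

set_option autoImplicit false

/-!
# Type E8 (MP_f8f4ef_co)
-/

namespace Pool.Agent.Helper645_PA

open Finset Pool.Agent.Helper282_TM CartanMatrix

set_option maxRecDepth 1000000 in
theorem chk8_0 : chkP RE8 0 22 = true := by decide +kernel

set_option maxRecDepth 1000000 in
theorem chk8_1 : chkP RE8 1 16 = true := by decide +kernel

set_option maxRecDepth 1000000 in
theorem chk8_2 : chkP RE8 2 12 = true := by decide +kernel

set_option maxRecDepth 1000000 in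
theorem chk8_3 : chkP RE8 3 8 = true := by decide +kernel

set_option maxRecDepth 1000000 in
theorem chk8_4 : chkP RE8 4 10 = true := by decide +kernel

set_option maxRecDepth 1000000 in
theorem chk8_5 : chkP RE8 5 13 = true := by decide +kernel

set_option maxRecDepth 1000000 in
theorem chk8_6 : chkP RE8 6 18 = true := by decide +kernel

set_option maxRecDepth 1000000 in
theorem chk8_7 : chkP RE8 7 28 = true := by decide +kernel

theorem stdE8 (a : Fin 8) : Std E₈ a := by
  have hR := rok_of_chkR colsOKE8 diagE8 chkRE8
  fin_cases a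
  · exact std_of_chkP hR 0 22 chk8_0
  · exact std_of_chkP hR 1 16 chk8_1
  · exact std_of_chkP hR 2 12 chk8_2
  · exact std_of_chkP hR 3 8 chk8_3
  · exact std_of_chkP hR 4 10 chk8_4
  · exact std_of_chkP hR 5 13 chk8_5
  · exact std_of_chkP hR 6 18 chk8_6
  · exact std_of_chkP hR 7 28 chk8_7

end Pool.Agent.Helper645_PA
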