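import Pool.Agent.Helper645_PA.ExcStd
import Pool.Agent.Helper282_TM.TypeEFG

set_option autoImplicit false

/-!
# Types F and G and E6 (MP_f8f4ef_co)
-/

namespace Pool.Agent.Helper645_PA

open Finset Pool.Agent.Helper282_TM CartanMatrix

set_option maxRecDepth 1000000 in
theorem stdG2 (a : Fin 2) : Std G₂ a := by
  have hR := rok_of_chkR colsOKG2 diagG2 chkRG2
  fin_cases a
  · exact std_of_chkP hR 0 4 (by decide +kernel)
  · exact std_of_chkP hR 1 2 (by decide +kernel)

set_option maxRecDepth 1000000 in
theorem stdF4 (a : Fin 4) : Std F₄ a := by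
  have hR := rok_of_chkR colsOKF4 diagF4 chkRF4
  fin_cases a
  · exact std_of_chkP hR 0 10 (by decide +kernel)
  · exact std_of_chkP hR 1 6 (by decide +kernel)
  · exact std_of_chkP hR 2 4 (by decide +kernel)
  · exact std_of_chkP hR 3 7 (by decide +kernel)

set_option maxRecDepth 1000000 in
theorem stdE6 (a : Fin 6) : Std E₆ a := by
  have hR := rok_of_chkR colsOKE6 diagE6 chkRE6
  fin_cases a
  · exact std_of_chkP hR 0 11 (by decide +kernel)
  · exact std_of_chkP hR 1 10 (by decide +kernel)
  · exact std_of_chkP hR 2 8 (by decide +kernel)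
  · exact std_of_chkP hR 3 6 (by decide +kernel)
  · exact std_of_chkP hR 4 8 (by decide +kernel)
  · exact std_of_chkP hR 5 11 (by decide +kernel)

end Pool.Agent.Helper645_PA
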