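import Pool.Agent.Helper645_PA.ExcAlg

set_option autoImplicit false

/-!
# The algorithm for a node of a given Cartan matrix (MP_f8f4ef_co)
-/

namespace Pool.Agent.Helper645_PA

open Finset Pool.Agent.Helper282_TM

/-- the list of the entries -/
def trp (all : List (List ℤ)) : List (List ℤ) → ℕ → List (ℕ × ℕ × ℕ)
  | [], _ => []
  | v :: rest, b => (upm v all 1 - b, b, upm v all 1) :: trp all rest (2 * b)

/-- the elements of `Δ(1)` -/
def pl (R : List (ℕ × ℤ × List ℤ)) (a : ℕ) : List (List ℤ) :=
  (R.filter fun p => decide (p.2.2.getD a 0 = 1)).map fun p => p.2.2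

/-- the check -/
noncomputable def chkP (R : List (ℕ × ℤ × List ℤ)) (a d : ℕ) : Bool :=
  let L := pl R a
  let D := trp L L 1
  (D.all fun t => Nat.blt t.1 t.2.1) && Nat.blt L.length 128 &&
    (L.any fun l => decide (l.sum = d)) && (L.all fun l => decide (l.sum ≤ d)) &&
    (force (2 ^ L.length - 1) fun full => force L.length fun m =>
      En (fun u => force (Nat.sub full u) fun c => It full m c D (d + 1) c 0) D 0)

theorem Ht_vec (n : ℕ) (l : List ℤ) (h : l.length = n) : Ht (vec n l) = l.sum := by
  induction n generalizing l with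
  | zero =>
    have : l = [] := List.length_eq_zero_iff.mp h
    subst this
    simp [Ht]
  | succ n ih =>
    cases l with
    | nil => simp at h
    | cons a l =>
      have h1 := ih l (by simpa using h)
      unfold Ht at h1 ⊢
      rw [Fin.sum_univ_succ, List.sum_cons, ← h1]
      simp [vec]

theorem bs_range (m : ℕ) : bs (range m) = 2 ^ m - 1 := by
  unfold bs
  rw [Nat.geomSum_eq (by norm_num)]
  norm_num

variable {n : ℕ} {A : Matrix (Fin n) (Fin n) ℤ}

theorem std_of_chkP {R : List (ℕ × ℤ × List ℤ)} (hR : ROK n A R) (a : Fin n) (d : ℕ)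
    (h : chkP R a d = true) : Std A a := by
  classical
  unfold chkP at h
  set L := pl R a with hL
  simp only [Bool.and_eq_true, List.all_eq_true, List.any_eq_true, force_eq,
    decide_eq_true_eq] at h
  obtain ⟨⟨⟨⟨h1, h2⟩, h3⟩, h4⟩, h5⟩ := h
  rw [Nat.blt_eq] at h2
  have hmem : ∀ l, l ∈ L ↔ ∃ p ∈ R, p.2.2 = l ∧ vec n l a = 1 := by
    intro l
    rw [hL]
    unfold pl
    rw [List.mem_map]
    constructor
    · rintro ⟨p, hp, rfl⟩
      rw [List.mem_filter, decide_eq_true_eq] at hp
      exact ⟨p, hp.1, rfl, hp.2⟩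
    · rintro ⟨p, hp, rfl, h6⟩
      exact ⟨p, by rw [List.mem_filter, decide_eq_true_eq]; exact ⟨hp, h6⟩, rfl⟩
  have hlenL : ∀ l ∈ L, l.length = n := by
    intro l hl
    obtain ⟨p, hp, rfl, _⟩ := (hmem l).1 hl
    exact hR.len p hp
  have hnodup : L.Nodup := by
    have h6 : (R.map fun p => p.2.2).Nodup := by
      have h7 : ((R.map fun p => p.2.2).map phi).Nodup := by
        rw [List.map_map]
        have : R.map (phi ∘ fun p => p.2.2) = R.map fun p => p.2.1 :=
          List.map_congr_left fun p hp => hR.code p hp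
        rw [this]
        exact hR.nodup
      exact List.Nodup.of_map _ h7
    rw [hL]
    unfold pl
    exact h6.sublist (List.Sublist.map _ List.filter_sublist)
  have hget : ∀ k < L.length, L.getD k [] ∈ L := by
    intro k hk
    rw [List.getD_eq_getElem _ _ hk]
    exact List.getElem_mem hk
  have hidx : ∀ i < L.length, ∀ j < L.length,
      vec n (L.getD i []) = vec n (L.getD j []) → i = j := by
    intro i hi j hj hij
    have := vec_inj (hlenL _ (hget i hi)) (hlenL _ (hget j hj)) hij
    rw [List.getD_eq_getElem _ _ hi, List.getD_eq_getElem _ _ hj] at this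
    exact (hnodup.getElem_inj_iff).mp this
  have hP : ∀ v, IsRoot A v ∧ v a = 1 ↔ ∃ k < L.length, v = vec n (L.getD k []) := by
    intro v
    constructor
    · rintro ⟨h6, h7⟩
      obtain ⟨p, hp, h8⟩ := hR.all v h6
      rcases h8 with rfl | rfl
      · obtain ⟨k, hk, h9⟩ := List.getElem_of_mem ((hmem p.2.2).2 ⟨p, hp, rfl, h7⟩)
        exact ⟨k, hk, by rw [List.getD_eq_getElem _ _ hk, h9]⟩
      · exfalso
        have := hR.nonneg p hp a
        rw [Pi.neg_apply] at h7
        simp only [Pi.zero_apply] at this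
        omega
    · rintro ⟨k, hk, rfl⟩
      obtain ⟨p, hp, h6, h7⟩ := (hmem _).1 (hget k hk)
      refine ⟨?_, h7⟩
      rw [← h6]
      exact hR.root p hp
  set m := L.length with hm
  let le : ℕ → ℕ → Prop := fun k j => vec n (L.getD k []) ≤ vec n (L.getD j [])
  let W : ℕ → Finset ℕ := fun k =>
    (range m).filter fun j => leV (L.getD k []) (L.getD j []) = true
  have hle : ∀ k < m, ∀ j < m, (le k j ↔ j ∈ W k) := by
    intro k hk j hj
    simp only [W, Finset.mem_filter, Finset.mem_range]
    rw [leV_vec (hlenL _ (hget k hk)) (hlenL _ (hget j hj))]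
    exact ⟨fun h => ⟨hj, h⟩, fun h => h.2⟩
  have hWm : ∀ k < m, W k ⊆ range m := fun k _ => Finset.filter_subset _ _
  have hself : ∀ k < m, k ∈ W k := fun k hk => (hle k hk k hk).1 le_rfl
  have hupm : ∀ k, upm (L.getD k []) L 1 = bs (W k) := by
    intro k
    have := upm_eq (L.getD k []) L 0
    rw [pow_zero] at this
    rw [this]
    unfold bs
    exact Finset.sum_congr rfl fun j _ => by rw [Nat.zero_add]
  have hbs : ∀ k < m, bs (W k) - 2 ^ k = bs ((W k).erase k) := by
    intro k hk
    unfold bs
    rw [← Finset.add_sum_erase _ _ (hself k hk), Nat.add_sub_cancel_left]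
  have hdat : ∀ (d k : ℕ), k + d = m → trp L (L.drop k) (2 ^ k) = datl m W k := by
    intro d
    induction d with
    | zero =>
      intro k hk
      have : k = m := by omega
      subst this
      rw [datl_end, List.drop_length]
      rfl
    | succ d ih =>
      intro k hk
      have hk' : k < m := by omega
      rw [List.drop_eq_getElem_cons hk', datl_succ _ _ hk']
      simp only [trp]
      have e1 : L[k] = L.getD k [] := (List.getD_eq_getElem _ _ hk').symm
      have e2 : 2 * 2 ^ k = 2 ^ (k + 1) := by rw [pow_succ, mul_comm]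
      rw [e1, hupm k, hbs k hk', e2, ih (k + 1) (by omega)]
      rfl
  have hD : trp L L 1 = datl m W 0 := by
    have := hdat m 0 (by omega)
    simpa using this
  rw [hD] at h1 h5
  have hlt : ∀ k < m, ∀ j ∈ W k, j ≤ k := by
    intro k hk j hj
    by_contra hcon
    have h6 : entry W k ∈ datl m W 0 := by
      unfold datl
      rw [List.mem_map]
      refine ⟨k, ?_, rfl⟩
      rw [List.mem_range'_1]
      omega
    have h7 := h1 _ h6
    rw [Nat.blt_eq] at h7
    simp only [entry] at h7
    have h8 : 2 ^ j ≤ bs ((W k).erase k) := by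
      unfold bs
      exact Finset.single_le_sum (f := fun i => 2 ^ i) (fun i _ => Nat.zero_le _)
        (Finset.mem_erase.2 ⟨by omega, hj⟩)
    have h9 : 2 ^ k ≤ 2 ^ j := Nat.pow_le_pow_right (by norm_num) (by omega)
    omega
  have hbal : Bal le (range m) (d + 1) := by
    refine bal_of_En m W le hle hWm (fun k hk => ⟨hself k hk, hlt k hk⟩) ?_ h2 (d + 1) ?_
    · intro i hi j hj
      have hjm := Finset.mem_range.1 (hWm i hi hj)
      intro x hx
      have hxm := Finset.mem_range.1 (hWm j hjm hx)
      rw [← hle i hi x hxm]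
      exact le_trans ((hle i hi j hjm).2 hj) ((hle j hjm x hxm).2 hx)
    · rw [bs_range]
      simp only [force_eq]
      exact h5
  set f : ℕ → Fin n → ℤ := fun k => vec n (L.getD k []) with hf
  have hmemP : ∀ v, v ∈ (range m).image f ↔ IsRoot A v ∧ v a = 1 := by
    intro v
    rw [hP, Finset.mem_image]
    constructor
    · rintro ⟨k, hk, rfl⟩
      exact ⟨k, Finset.mem_range.1 hk, rfl⟩
    · rintro ⟨k, hk, rfl⟩
      exact ⟨k, Finset.mem_range.2 hk, rfl⟩
  refine ⟨(range m).image f, hmemP, d, ?_, ?_, ?_⟩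
  · obtain ⟨l, hl, h6⟩ := h3
    obtain ⟨k, hk, rfl⟩ := List.getElem_of_mem hl
    refine ⟨f k, Finset.mem_image.2 ⟨k, Finset.mem_range.2 hk, rfl⟩, ?_⟩
    simp only [hf]
    rw [List.getD_eq_getElem _ _ hk, Ht_vec n _ (hlenL _ hl)]
    exact h6
  · intro v hv
    obtain ⟨k, hk, rfl⟩ := Finset.mem_image.1 hv
    have hk' := Finset.mem_range.1 hk
    simp only [hf]
    rw [Ht_vec n _ (hlenL _ (hget k hk'))]
    exact h4 _ (hget k hk')
  · refine hbal.transfer f (fun x => Finset.mem_image) ?_ ?_
    · intro x hx y hy hxy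
      exact hidx x (Finset.mem_range.1 hx) y (Finset.mem_range.1 hy) hxy
    · intro x _ y _
      exact Iff.rfl

end Pool.Agent.Helper645_PA
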