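import Pool.Agent.Helper645_PA.KRot

set_option autoImplicit false

/-!
# Products of a chain and K_m (proved by helper963)
-/

namespace Pool.Agent.Helper645_PA

open Finset




open Classical in
/-- the columns of the word -/
def K_bal_col (m : ℕ) (B : Finset (ℕ × ℕ)) (l : ℕ) : Prop :=
  (l < m - 1 ∧ ∃ i, (i, l) ∈ B) ∨ (l = m - 1 ∧ (∃ i, (i, m - 1) ∈ B) ∧ ∃ i, (i, m) ∈ B) ∨
    (m - 1 < l ∧ ∃ i, (i, l + 1) ∈ B)

open Classical in
/-- the word -/
noncomputable def K_bal_w (k m : ℕ) (B : Finset (ℕ × ℕ)) (s : ℕ) : ℕ :=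
  if s < k then (if ∃ c, (s, c) ∈ B then 1 else 0) else (if K_bal_col m B (s - k) then 0 else 1)

theorem K_bal_col_lt {m : ℕ} {B : Finset (ℕ × ℕ)} {l : ℕ} (h : l < m - 1) :
    K_bal_col m B l ↔ ∃ i, (i, l) ∈ B := by
  unfold K_bal_col
  constructor
  · rintro (h1 | h1 | h1)
    · exact h1.2
    · omega
    · omega
  · intro h1
    exact Or.inl ⟨h, h1⟩

theorem K_bal_col_eq {m : ℕ} {B : Finset (ℕ × ℕ)} :
    K_bal_col m B (m - 1) ↔ (∃ i, (i, m - 1) ∈ B) ∧ ∃ i, (i, m) ∈ B := by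
  unfold K_bal_col
  constructor
  · rintro (h1 | h1 | h1)
    · omega
    · exact h1.2
    · omega
  · intro h1
    exact Or.inr (Or.inl ⟨rfl, h1⟩)

theorem K_bal_col_gt {m : ℕ} {B : Finset (ℕ × ℕ)} {l : ℕ} (h : m - 1 < l) :
    K_bal_col m B l ↔ ∃ i, (i, l + 1) ∈ B := by
  unfold K_bal_col
  constructor
  · rintro (h1 | h1 | h1)
    · omega
    · omega
    · exact h1.2
  · intro h1
    exact Or.inr (Or.inr ⟨h, h1⟩)

theorem K_bal_w_le (k m : ℕ) (B : Finset (ℕ × ℕ)) (s : ℕ) : K_bal_w k m B s ≤ 1 := by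
  unfold K_bal_w
  split_ifs <;> omega

open Classical in
theorem K_bal_w_lt {k m : ℕ} {B : Finset (ℕ × ℕ)} {s : ℕ} (h : s < k) :
    K_bal_w k m B s = if ∃ c, (s, c) ∈ B then 1 else 0 := by
  unfold K_bal_w
  rw [if_pos h]

open Classical in
theorem K_bal_w_ge {k m : ℕ} {B : Finset (ℕ × ℕ)} {l : ℕ} :
    K_bal_w k m B (k + l) = if K_bal_col m B l then 0 else 1 := by
  unfold K_bal_w
  have h : ¬ k + l < k := by omega
  rw [if_neg h, Nat.add_sub_cancel_left]

theorem K_bal_step (k m : ℕ) (hk : 1 ≤ k) (hm : 2 ≤ m) (A : Finset (ℕ × ℕ))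
    (hA : Anti (kpr m) (range k ×ˢ range (2 * m)) A) :
    (∀ s, s + 1 < k + (2 * m - 1) →
      K_bal_w k m (rev (kpr m) (range k ×ˢ range (2 * m)) A) s = K_bal_w k m A (s + 1)) ∧
    K_bal_w k m (rev (kpr m) (range k ×ˢ range (2 * m)) A) (k + (2 * m - 1) - 1) =
      K_bal_w k m A 0 := by
  classical
  obtain ⟨r1, r2, c0, c1, c2, r3⟩ := K_rot k m hk hm A hA _ rfl
  generalize rev (kpr m) (range k ×ˢ range (2 * m)) A = A' at *
  constructor
  · intro s hs
    rcases Nat.lt_or_ge s k with h | h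
    · rw [K_bal_w_lt h]
      rcases Nat.lt_or_ge (s + 1) k with h' | h'
      · rw [K_bal_w_lt h']
        have := r1 s h'
        by_cases h3 : ∃ c, (s, c) ∈ A'
        · rw [if_pos h3, if_pos (this.1 h3)]
        · rw [if_neg h3, if_neg (fun h4 => h3 (this.2 h4))]
      · have e : s = k - 1 := by omega
        have e2 : s + 1 = k + 0 := by omega
        rw [e2, K_bal_w_ge]
        have e3 : K_bal_col m A 0 ↔ ∃ i, (i, 0) ∈ A := K_bal_col_lt (by omega)
        subst e
        by_cases h3 : ∃ i, (i, 0) ∈ A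
        · rw [if_pos (e3.2 h3), if_neg (fun h4 => (r2.1 h4) h3)]
        · rw [if_neg (fun h4 => h3 (e3.1 h4)), if_pos (r2.2 h3)]
    · obtain ⟨l, rfl⟩ : ∃ l, s = k + l := ⟨s - k, by omega⟩
      rw [Nat.add_assoc, K_bal_w_ge, K_bal_w_ge]
      have key : K_bal_col m A' l ↔ K_bal_col m A (l + 1) := by
        rcases Nat.lt_trichotomy l (m - 1) with h1 | h1 | h1
        · rw [K_bal_col_lt h1]
          rcases Nat.lt_or_ge (l + 1) (m - 1) with h2 | h2
          · rw [K_bal_col_lt h2]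
            exact c0 l (by omega) (by omega) (by omega) (by omega) (by omega)
          · have e : l = m - 2 := by omega
            have e3 : l + 1 = m - 1 := by omega
            rw [e3, K_bal_col_eq, e]
            exact c1
        · rw [h1, K_bal_col_eq, K_bal_col_gt (by omega)]
          have e3 : m - 1 + 1 + 1 = m + 1 := by omega
          rw [e3]
          exact c2
        · rw [K_bal_col_gt h1, K_bal_col_gt (by omega)]
          exact c0 (l + 1) (by omega) (by omega) (by omega) (by omega) (by omega)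
      by_cases h3 : K_bal_col m A' l
      · rw [if_pos h3, if_pos (key.1 h3)]
      · rw [if_neg h3, if_neg (fun h4 => h3 (key.2 h4))]
  · have e1 : k + (2 * m - 1) - 1 = k + (2 * m - 2) := by omega
    rw [e1, K_bal_w_ge, K_bal_w_lt (show 0 < k by omega)]
    have e2 : K_bal_col m A' (2 * m - 2) ↔ ∃ i, (i, 2 * m - 1) ∈ A' := by
      rw [K_bal_col_gt (by omega)]
      have e3 : 2 * m - 2 + 1 = 2 * m - 1 := by omega
      rw [e3]
    by_cases h3 : ∃ c, (0, c) ∈ A
    · rw [if_pos h3, if_neg]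
      intro h4
      exact r3.1 (e2.1 h4) h3
    · rw [if_neg h3, if_pos]
      exact e2.2 (r3.2 h3)

theorem K_bal_comp (m a b : ℕ) (h : a ≠ b) :
    kle m a b ∨ kle m b a ∨ (a = m - 1 ∧ b = m) ∨ (a = m ∧ b = m - 1) := by
  unfold kle
  omega

theorem K_bal_colinj {m : ℕ} {P B : Finset (ℕ × ℕ)} (hB : Anti (kpr m) P B) {i i' c : ℕ}
    (h1 : (i, c) ∈ B) (h2 : (i', c) ∈ B) : i = i' := by
  rcases Nat.le_total i i' with h | h
  · have := hB.2 _ h1 _ h2 ⟨h, Or.inl rfl⟩
    exact (Prod.mk.inj this).1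
  · have := hB.2 _ h2 _ h1 ⟨h, Or.inl rfl⟩
    exact (Prod.mk.inj this).1.symm

theorem K_bal_rowpair {m : ℕ} {P B : Finset (ℕ × ℕ)} (hB : Anti (kpr m) P B) {i c c' : ℕ}
    (h1 : (i, c) ∈ B) (h2 : (i, c') ∈ B) (h : c ≠ c') :
    (c = m - 1 ∧ c' = m) ∨ (c = m ∧ c' = m - 1) := by
  rcases K_bal_comp m c c' h with h3 | h3 | h3
  · exact absurd (Prod.mk.inj (hB.2 _ h1 _ h2 ⟨le_refl _, h3⟩)).2 h
  · exact absurd (Prod.mk.inj (hB.2 _ h2 _ h1 ⟨le_refl _, h3⟩)).2.symm h
  · exact h3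

open Classical in
theorem K_bal_fibc {m : ℕ} {P B : Finset (ℕ × ℕ)} (hB : Anti (kpr m) P B) (c : ℕ) :
    (B.filter fun x => x.2 = c).card = if ∃ i, (i, c) ∈ B then 1 else 0 := by
  split_ifs with h
  · obtain ⟨i, hi⟩ := h
    rw [Finset.card_eq_one]
    refine ⟨(i, c), ?_⟩
    ext ⟨a, b⟩
    rw [Finset.mem_filter, Finset.mem_singleton]
    constructor
    · rintro ⟨h1, h2⟩
      simp only at h2
      subst h2
      rw [K_bal_colinj hB h1 hi]
    · intro h1
      rw [h1]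
      exact ⟨hi, rfl⟩
  · rw [Finset.card_eq_zero, Finset.filter_eq_empty_iff]
    rintro ⟨a, b⟩ hx hx2
    simp only at hx2
    subst hx2
    exact h ⟨a, hx⟩

open Classical in
theorem K_bal_fibr {m : ℕ} (hm : 2 ≤ m) {P B : Finset (ℕ × ℕ)} (hB : Anti (kpr m) P B) (i : ℕ) :
    (B.filter fun x => x.1 = i).card = (if ∃ c, (i, c) ∈ B then 1 else 0) +
      (if (i, m - 1) ∈ B ∧ (i, m) ∈ B then 1 else 0) := by
  by_cases h : ∃ c, (i, c) ∈ B
  · rw [if_pos h]
    by_cases h' : (i, m - 1) ∈ B ∧ (i, m) ∈ B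
    · rw [if_pos h']
      have e : (B.filter fun x => x.1 = i) = {(i, m - 1), (i, m)} := by
        ext ⟨a, b⟩
        simp only [Finset.mem_filter, Finset.mem_insert, Finset.mem_singleton, Prod.mk.injEq]
        constructor
        · rintro ⟨h1, rfl⟩
          by_cases h2 : b = m
          · exact Or.inr ⟨rfl, h2⟩
          · rcases K_bal_rowpair hB h1 h'.2 h2 with h3 | h3
            · exact Or.inl ⟨rfl, h3.1⟩
            · exact absurd h3.1 h2
        · rintro (⟨rfl, rfl⟩ | ⟨rfl, rfl⟩)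
          · exact ⟨h'.1, rfl⟩
          · exact ⟨h'.2, rfl⟩
      rw [e, Finset.card_pair]
      intro h1
      have := (Prod.mk.inj h1).2
      omega
    · rw [if_neg h']
      obtain ⟨c, hc⟩ := h
      have e : (B.filter fun x => x.1 = i) = {(i, c)} := by
        ext ⟨a, b⟩
        simp only [Finset.mem_filter, Finset.mem_singleton, Prod.mk.injEq]
        constructor
        · rintro ⟨h1, rfl⟩
          refine ⟨rfl, ?_⟩
          by_contra h2
          rcases K_bal_rowpair hB h1 hc h2 with h3 | h3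
          · exact h' ⟨h3.1 ▸ h1, h3.2 ▸ hc⟩
          · exact h' ⟨h3.2 ▸ hc, h3.1 ▸ h1⟩
        · rintro ⟨rfl, rfl⟩
          exact ⟨hc, rfl⟩
      rw [e, Finset.card_singleton]
  · rw [if_neg h, if_neg, Finset.card_eq_zero.2]
    · rw [Finset.filter_eq_empty_iff]
      rintro ⟨a, b⟩ hx hx2
      simp only at hx2
      subst hx2
      exact h ⟨b, hx⟩
    · rintro ⟨h1, _⟩
      exact h ⟨_, h1⟩

open Classical in
theorem K_bal_cnt (k m : ℕ) (hk : 1 ≤ k) (hm : 2 ≤ m) (B : Finset (ℕ × ℕ))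
    (hB : Anti (kpr m) (range k ×ˢ range (2 * m)) B) :
    ∃ e : ℕ, B.card = ∑ s ∈ range k, K_bal_w k m B s + e ∧
      ((∑ s ∈ range (k + (2 * m - 1)), K_bal_w k m B s = 2 * m ∧ e = 0) ∨
       (∑ s ∈ range (k + (2 * m - 1)), K_bal_w k m B s + 1 = 2 * m ∧
        e + K_bal_w k m B (k + m - 1) = 1)) := by
  obtain ⟨μ, rfl⟩ : ∃ μ, m = μ + 1 := ⟨m - 1, by omega⟩
  set m := μ + 1 with hmdef
  -- rows
  have hrow : B.card = ∑ s ∈ range k, K_bal_w k m B s +
      ∑ i ∈ range k, (if (i, m - 1) ∈ B ∧ (i, m) ∈ B then 1 else 0) := by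
    have h1 : ∀ x ∈ B, x.1 ∈ range k := fun x hx => (Finset.mem_product.1 (hB.1 hx)).1
    rw [Finset.card_eq_sum_card_fiberwise h1, ← Finset.sum_add_distrib]
    refine Finset.sum_congr rfl fun i hi => ?_
    rw [K_bal_fibr hm hB i]
    rw [K_bal_w_lt (Finset.mem_range.1 hi)]
  have hcol : B.card = ∑ c ∈ range (2 * m), (if ∃ i, (i, c) ∈ B then 1 else 0) := by
    have h1 : ∀ x ∈ B, x.2 ∈ range (2 * m) := fun x hx => (Finset.mem_product.1 (hB.1 hx)).2
    rw [Finset.card_eq_sum_card_fiberwise h1]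
    exact Finset.sum_congr rfl fun c _ => K_bal_fibc hB c
  obtain ⟨e, he⟩ : ∃ e, e = ∑ i ∈ range k, (if (i, m - 1) ∈ B ∧ (i, m) ∈ B then 1 else 0) :=
    ⟨_, rfl⟩
  rw [← he] at hrow
  have he1 : e ≤ 1 := by
    rw [he, ← Finset.card_filter, Finset.card_le_one]
    intro a ha b hb
    exact K_bal_colinj hB (Finset.mem_filter.1 ha).2.1 (Finset.mem_filter.1 hb).2.1
  have he2 : 1 ≤ e → (∃ i, (i, m - 1) ∈ B) ∧ ∃ i, (i, m) ∈ B := by
    intro h1
    rw [he, ← Finset.card_filter] at h1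
    obtain ⟨i, hi⟩ := Finset.card_pos.1 h1
    exact ⟨⟨i, (Finset.mem_filter.1 hi).2.1⟩, ⟨i, (Finset.mem_filter.1 hi).2.2⟩⟩
  -- the sum over all columns
  have hs1 : ∑ c ∈ range (2 * m), (if ∃ i, (i, c) ∈ B then 1 else 0) =
      ∑ c ∈ range μ, (if ∃ i, (i, c) ∈ B then 1 else 0) +
      ((if ∃ i, (i, μ) ∈ B then 1 else 0) + (if ∃ i, (i, μ + 1) ∈ B then 1 else 0) +
      ∑ c ∈ range μ, (if ∃ i, (i, μ + 2 + c) ∈ B then 1 else 0)) := by
    have e1 : 2 * m = μ + 2 + μ := by omega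
    rw [e1, Finset.sum_range_add, Finset.sum_range_succ, Finset.sum_range_succ]
    ring
  have hs2 : ∑ s ∈ range (k + (2 * m - 1)), K_bal_w k m B s + (∑ c ∈ range μ,
      (if ∃ i, (i, c) ∈ B then 1 else 0) +
      ((if (∃ i, (i, μ) ∈ B) ∧ ∃ i, (i, μ + 1) ∈ B then 1 else 0) +
      ∑ c ∈ range μ, (if ∃ i, (i, μ + 2 + c) ∈ B then 1 else 0))) =
      ∑ s ∈ range k, K_bal_w k m B s + (2 * m - 1) := by
    have e1 : 2 * m - 1 = μ + 1 + μ := by omega
    rw [e1, Finset.sum_range_add, Finset.sum_range_add, Finset.sum_range_succ]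
    have f1 : ∑ x ∈ range μ, K_bal_w k m B (k + x) +
        ∑ c ∈ range μ, (if ∃ i, (i, c) ∈ B then 1 else 0) = μ := by
      rw [← Finset.sum_add_distrib]
      have : ∀ x ∈ range μ, K_bal_w k m B (k + x) + (if ∃ i, (i, x) ∈ B then 1 else 0) = 1 := by
        intro x hx
        have hx' := Finset.mem_range.1 hx
        rw [K_bal_w_ge]
        have := @K_bal_col_lt m B x (by omega)
        by_cases h : ∃ i, (i, x) ∈ B
        · rw [if_pos (this.2 h), if_pos h]
        · rw [if_neg (fun h1 => h (this.1 h1)), if_neg h]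
      rw [Finset.sum_congr rfl this]
      simp
    have f2 : K_bal_w k m B (k + μ) +
        (if (∃ i, (i, μ) ∈ B) ∧ ∃ i, (i, μ + 1) ∈ B then 1 else 0) = 1 := by
      rw [K_bal_w_ge]
      have := @K_bal_col_eq m B
      have e2 : m - 1 = μ := by omega
      rw [e2] at this
      by_cases h : (∃ i, (i, μ) ∈ B) ∧ ∃ i, (i, μ + 1) ∈ B
      · rw [if_pos (this.2 h), if_pos h]
      · rw [if_neg (fun h1 => h (this.1 h1)), if_neg h]
    have f3 : ∑ x ∈ range μ, K_bal_w k m B (k + (μ + 1 + x)) +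
        ∑ c ∈ range μ, (if ∃ i, (i, μ + 2 + c) ∈ B then 1 else 0) = μ := by
      rw [← Finset.sum_add_distrib]
      have : ∀ x ∈ range μ, K_bal_w k m B (k + (μ + 1 + x)) +
          (if ∃ i, (i, μ + 2 + x) ∈ B then 1 else 0) = 1 := by
        intro x hx
        have hx' := Finset.mem_range.1 hx
        rw [K_bal_w_ge]
        have := @K_bal_col_gt m B (μ + 1 + x) (by omega)
        have e2 : μ + 1 + x + 1 = μ + 2 + x := by omega
        rw [e2] at this
        by_cases h : ∃ i, (i, μ + 2 + x) ∈ B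
        · rw [if_pos (this.2 h), if_pos h]
        · rw [if_neg (fun h1 => h (this.1 h1)), if_neg h]
      rw [Finset.sum_congr rfl this]
      simp
    omega
  rw [hs1] at hcol
  refine ⟨e, hrow, ?_⟩
  have e5 : k + m - 1 = k + μ := by omega
  rw [e5]
  have f2 : K_bal_w k m B (k + μ) +
      (if (∃ i, (i, μ) ∈ B) ∧ ∃ i, (i, μ + 1) ∈ B then 1 else 0) = 1 := by
    rw [K_bal_w_ge]
    have := @K_bal_col_eq m B
    have e2 : m - 1 = μ := by omega
    rw [e2] at this
    by_cases h : (∃ i, (i, μ) ∈ B) ∧ ∃ i, (i, μ + 1) ∈ B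
    · rw [if_pos (this.2 h), if_pos h]
    · rw [if_neg (fun h1 => h (this.1 h1)), if_neg h]
  have e6 : m - 1 = μ := by omega
  rw [e6] at he2
  by_cases hp : ∃ i, (i, μ) ∈ B
  · by_cases hq : ∃ i, (i, μ + 1) ∈ B
    · rw [if_pos hp, if_pos hq] at hcol
      rw [if_pos ⟨hp, hq⟩] at hs2 f2
      omega
    · have hn : ¬ ((∃ i, (i, μ) ∈ B) ∧ ∃ i, (i, μ + 1) ∈ B) := fun h => hq h.2
      rw [if_pos hp, if_neg hq] at hcol
      rw [if_neg hn] at hs2 f2
      have h0 : e = 0 := by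
        by_contra h1
        exact hn (he2 (by omega))
      omega
  · have hn : ¬ ((∃ i, (i, μ) ∈ B) ∧ ∃ i, (i, μ + 1) ∈ B) := fun h => hp h.1
    have h0 : e = 0 := by
      by_contra h1
      exact hn (he2 (by omega))
    by_cases hq : ∃ i, (i, μ + 1) ∈ B
    · rw [if_neg hp, if_pos hq] at hcol
      rw [if_neg hn] at hs2 f2
      omega
    · rw [if_neg hp, if_neg hq] at hcol
      rw [if_neg hn] at hs2 f2
      omega

theorem K_bal (k m : ℕ) (hk : 1 ≤ k) (hm : 2 ≤ m) :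
    Bal (kpr m) (range k ×ˢ range (2 * m)) (k + (2 * m - 1)) := by
  intro A hA
  set P := range k ×ˢ range (2 * m) with hP
  set N := k + (2 * m - 1) with hN
  set w : ℕ → ℕ → ℕ := fun t s => K_bal_w k m ((rev (kpr m) P)^[t] A) s with hw
  have hanti : ∀ t, Anti (kpr m) P ((rev (kpr m) P)^[t] A) := fun t => iter_anti hA t
  have hst := fun t => K_bal_step k m hk hm _ (hanti t)
  have h1 : ∀ t s, s + 1 < N → w (t + 1) s = w t (s + 1) := by
    intro t s hs
    simp only [hw, Function.iterate_succ_apply']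
    exact (hst t).1 s hs
  have h2 : ∀ t, w (t + 1) (N - 1) = w t 0 := by
    intro t
    simp only [hw, Function.iterate_succ_apply']
    exact (hst t).2
  have hrot := rot_sum N w h1 h2
  have hones : ∀ t, ∑ s ∈ range N, w t s = ∑ j ∈ range N, w 0 j := by
    intro t
    induction t with
    | zero => rfl
    | succ t ih =>
      rw [← ih]
      obtain ⟨N', hN'⟩ : ∃ N', N = N' + 1 := ⟨N - 1, by omega⟩
      rw [hN', Finset.sum_range_succ, Finset.sum_range_succ']
      have e1 : ∑ x ∈ range N', w (t + 1) x = ∑ x ∈ range N', w t (x + 1) :=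
        Finset.sum_congr rfl fun x hx => h1 t x (by have := Finset.mem_range.1 hx; omega)
      have e2 : w (t + 1) N' = w t 0 := by
        have := h2 t
        rwa [hN', Nat.add_sub_cancel] at this
      rw [e1, e2]
  have hcard : P.card = k * (2 * m) := by
    rw [hP, Finset.card_product, Finset.card_range, Finset.card_range]
  rw [hcard]
  choose e he1 he2 using fun t => K_bal_cnt k m hk hm _ (hanti t)
  have hsum : ∑ t ∈ range N, ((rev (kpr m) P)^[t] A).card =
      k * (∑ j ∈ range N, w 0 j) + ∑ t ∈ range N, e t := by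
    have e1 : ∑ t ∈ range N, ((rev (kpr m) P)^[t] A).card =
        ∑ t ∈ range N, (∑ s ∈ range k, w t s + e t) :=
      Finset.sum_congr rfl fun t _ => he1 t
    rw [e1, Finset.sum_add_distrib, Finset.sum_comm]
    have e2 : ∑ s ∈ range k, ∑ t ∈ range N, w t s = ∑ s ∈ range k, ∑ j ∈ range N, w 0 j :=
      Finset.sum_congr rfl fun s hs => hrot s (by have := Finset.mem_range.1 hs; omega)
    rw [e2, Finset.sum_const, Finset.card_range, smul_eq_mul]
  rw [hsum]
  have hall : ∀ t, (∑ j ∈ range N, w 0 j = 2 * m ∧ e t = 0) ∨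
      (∑ j ∈ range N, w 0 j + 1 = 2 * m ∧ e t + w t (k + m - 1) = 1) := by
    intro t
    rw [← hones t]
    exact he2 t
  by_cases hc : ∑ j ∈ range N, w 0 j = 2 * m
  · rw [hc]
    have e0 : ∑ t ∈ range N, e t = 0 := by
      refine Finset.sum_eq_zero fun t _ => ?_
      rcases hall t with h | h
      · exact h.2
      · omega
    rw [e0]
    ring
  · have hc1 : ∑ j ∈ range N, w 0 j + 1 = 2 * m := by
      rcases hall 0 with h | h
      · exact absurd h.1 hc
      · exact h.1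
    have e3 : ∑ t ∈ range N, e t + ∑ t ∈ range N, w t (k + m - 1) = N := by
      rw [← Finset.sum_add_distrib]
      have : ∀ t ∈ range N, e t + w t (k + m - 1) = 1 := by
        intro t _
        rcases hall t with h | h
        · exact absurd h.1 hc
        · exact h.2
      rw [Finset.sum_congr rfl this]
      simp
    rw [hrot (k + m - 1) (by omega)] at e3
    generalize ∑ j ∈ range N, w 0 j = n1 at *
    have e4 : ∑ t ∈ range N, e t = k := by omega
    rw [e4]
    have e5 : 2 * m = n1 + 1 := hc1.symm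
    rw [e5]
    ring

end Pool.Agent.Helper645_PA
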