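import Pool.Agent.Helper645_PA.Defs

set_option autoImplicit false

/-!
# Products of a chain and K_m, rotation (proved by helper807)
-/

namespace Pool.Agent.Helper645_PA

open Finset


theorem K_rot_max (p : ℕ → Prop) (N : ℕ) (h : ∀ x, p x → x < N) (x0 : ℕ) (hx0 : p x0) :
    ∃ x, p x ∧ x0 ≤ x ∧ ∀ y, p y → y ≤ x := by
  classical
  refine ⟨Nat.findGreatest p N, Nat.findGreatest_spec (h x0 hx0).le hx0,
    Nat.le_findGreatest (h x0 hx0).le hx0, fun y hy => Nat.le_findGreatest (h y hy).le hy⟩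

theorem K_rot_aux (k m : ℕ) (hk : 1 ≤ k) (hm : 2 ≤ m) (Am Am' D : ℕ → ℕ → Prop)
    (hb : ∀ u v, Am u v → u < k ∧ v < 2 * m)
    (hA : ∀ u v u' v', Am u v → Am u' v' → u ≤ u' → kle m v v' → u = u' ∧ v = v')
    (hD : ∀ i c, D i c ↔ (i < k ∧ c < 2 * m ∧ ∀ u v, Am u v → u ≤ i → ¬ kle m v c))
    (hA' : ∀ i c, Am' i c ↔ (D i c ∧ ∀ i2 c2, D i2 c2 → i ≤ i2 → kle m c c2 → i2 = i ∧ c2 = c)) :
    (∀ i, i + 1 < k → ((∃ c, Am' i c) ↔ ∃ c, Am (i + 1) c)) ∧
    ((∃ c, Am' (k - 1) c) ↔ ¬ ∃ i, Am i 0) ∧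
    (∀ c, c + 1 < 2 * m → c ≠ m - 1 → c ≠ m → c + 1 ≠ m - 1 → c + 1 ≠ m →
      ((∃ i, Am' i c) ↔ ∃ i, Am i (c + 1))) ∧
    ((∃ i, Am' i (m - 2)) ↔ (∃ i, Am i (m - 1)) ∧ ∃ i, Am i m) ∧
    (((∃ i, Am' i (m - 1)) ∧ ∃ i, Am' i m) ↔ ∃ i, Am i (m + 1)) ∧
    ((∃ i, Am' i (2 * m - 1)) ↔ ¬ ∃ c, Am 0 c) := by
  have notD : ∀ i c, i < k → c < 2 * m → ¬ D i c → ∃ u v, Am u v ∧ u ≤ i ∧ kle m v c := by
    intro i c hi hc h
    rw [hD] at h
    push Not at h
    obtain ⟨u, v, h1, h2, h3⟩ := h hi hc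
    exact ⟨u, v, h1, h2, h3⟩
  -- the largest element of `D` in a row and in a column
  have rowmax : ∀ i c, D i c → ∃ c', D i c' ∧ kle m c c' ∧
      ∀ c2, D i c2 → kle m c c2 → c2 ≤ c' := by
    intro i c h
    obtain ⟨c', ⟨h1, h2⟩, _, h4⟩ := K_rot_max (fun c' => D i c' ∧ kle m c c') (2 * m)
      (fun x hx => ((hD _ _).1 hx.1).2.1) c ⟨h, Or.inl rfl⟩
    exact ⟨c', h1, h2, fun c2 h5 h6 => h4 c2 ⟨h5, h6⟩⟩
  have colmax : ∀ i c, D i c → ∃ i', D i' c ∧ i ≤ i' ∧ ∀ i2, D i2 c → i2 ≤ i' := by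
    intro i c h
    exact K_rot_max (fun i' => D i' c) k (fun x hx => ((hD _ _).1 hx).1) i h
  refine ⟨?_, ?_, ?_, ?_, ?_, ?_⟩
  · intro i hi
    constructor
    · rintro ⟨c, hc⟩
      rw [hA'] at hc
      obtain ⟨h1, h2⟩ := hc
      have h3 := (hD _ _).1 h1
      have h4 : ¬ D (i + 1) c := fun h4 => by
        have := h2 (i + 1) c h4 (by omega) (Or.inl rfl)
        omega
      obtain ⟨u, v, h5, h6, h7⟩ := notD _ _ hi h3.2.1 h4
      by_cases hu : u ≤ i
      · exact (h3.2.2 u v h5 hu h7).elim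
      · have : u = i + 1 := by omega
        subst this
        exact ⟨v, h5⟩
    · rintro ⟨c, hc⟩
      have hb1 := hb _ _ hc
      have h1 : D i c := by
        rw [hD]
        refine ⟨by omega, hb1.2, fun u v h2 h3 h4 => ?_⟩
        have := hA u v (i + 1) c h2 hc (by omega) h4
        omega
      obtain ⟨c', h2, h3, h4⟩ := rowmax i c h1
      refine ⟨c', (hA' _ _).2 ⟨h2, fun i2 c2 h5 h6 h7 => ?_⟩⟩
      have h8 := (hD _ _).1 h5
      have h9 : kle m c c2 := by unfold kle at *; omega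
      by_cases hi2 : i + 1 ≤ i2
      · exact (h8.2.2 _ _ hc hi2 h9).elim
      · have : i2 = i := by omega
        subst this
        have := h4 c2 h5 h9
        unfold kle at h7
        omega
  · constructor
    · rintro ⟨c, hc⟩ ⟨i, hi⟩
      rw [hA'] at hc
      have h3 := (hD _ _).1 hc.1
      have hb1 := hb _ _ hi
      exact h3.2.2 _ _ hi (by omega) (by unfold kle; omega)
    · intro h
      have h1 : D (k - 1) 0 := by
        rw [hD]
        refine ⟨by omega, by omega, fun u v h2 h3 h4 => ?_⟩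
        have : v = 0 := by unfold kle at h4; omega
        subst this
        exact h ⟨u, h2⟩
      obtain ⟨c', h2, h3, h4⟩ := rowmax _ _ h1
      refine ⟨c', (hA' _ _).2 ⟨h2, fun i2 c2 h5 h6 h7 => ?_⟩⟩
      have h8 := (hD _ _).1 h5
      have : i2 = k - 1 := by omega
      subst this
      have := h4 c2 h5 (by unfold kle at *; omega)
      unfold kle at h7
      omega
  · intro c hc g1 g2 g3 g4
    constructor
    · rintro ⟨i, hi⟩
      rw [hA'] at hi
      obtain ⟨h1, h2⟩ := hi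
      have h3 := (hD _ _).1 h1
      have h4 : ¬ D i (c + 1) := fun h4 => by
        have := h2 i (c + 1) h4 le_rfl (by unfold kle; omega)
        omega
      obtain ⟨u, v, h5, h6, h7⟩ := notD _ _ h3.1 hc h4
      have h8 := h3.2.2 u v h5 h6
      have : v = c + 1 := by unfold kle at *; omega
      subst this
      exact ⟨u, h5⟩
    · rintro ⟨i, hi⟩
      have hb1 := hb _ _ hi
      have h1 : D i c := by
        rw [hD]
        refine ⟨hb1.1, by omega, fun u v h2 h3 h4 => ?_⟩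
        have := hA u v i (c + 1) h2 hi h3 (by unfold kle at *; omega)
        unfold kle at h4
        omega
      obtain ⟨i', h2, h3, h4⟩ := colmax i c h1
      refine ⟨i', (hA' _ _).2 ⟨h2, fun i2 c2 h5 h6 h7 => ?_⟩⟩
      have h8 := (hD _ _).1 h5
      by_cases hc2 : c2 = c
      · subst hc2
        have := h4 i2 h5
        omega
      · exact (h8.2.2 _ _ hi (by omega) (by unfold kle at *; omega)).elim
  · constructor
    · rintro ⟨i, hi⟩
      rw [hA'] at hi
      obtain ⟨h1, h2⟩ := hi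
      have h3 := (hD _ _).1 h1
      constructor
      · have h4 : ¬ D i (m - 1) := fun h4 => by
          have := h2 i (m - 1) h4 le_rfl (by unfold kle; omega)
          omega
        obtain ⟨u, v, h5, h6, h7⟩ := notD _ _ h3.1 (by omega) h4
        have h8 := h3.2.2 u v h5 h6
        have : v = m - 1 := by unfold kle at *; omega
        subst this
        exact ⟨u, h5⟩
      · have h4 : ¬ D i m := fun h4 => by
          have := h2 i m h4 le_rfl (by unfold kle; omega)
          omega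
        obtain ⟨u, v, h5, h6, h7⟩ := notD _ _ h3.1 (by omega) h4
        have h8 := h3.2.2 u v h5 h6
        have : v = m := by unfold kle at *; omega
        subst this
        exact ⟨u, h5⟩
    · rintro ⟨⟨u, hu⟩, u', hu'⟩
      have hb1 := hb _ _ hu
      have hb2 := hb _ _ hu'
      have h1 : D (max u u') (m - 2) := by
        rw [hD]
        refine ⟨by omega, by omega, fun p q h2 h3 h4 => ?_⟩
        rcases le_total u u' with h | h
        · have := hA p q u' m h2 hu' (by omega) (by unfold kle at *; omega)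
          unfold kle at h4
          omega
        · have := hA p q u (m - 1) h2 hu (by omega) (by unfold kle at *; omega)
          unfold kle at h4
          omega
      obtain ⟨i', h2, h3, h4⟩ := colmax _ _ h1
      refine ⟨i', (hA' _ _).2 ⟨h2, fun i2 c2 h5 h6 h7 => ?_⟩⟩
      have h8 := (hD _ _).1 h5
      by_cases hc2 : c2 = m - 2
      · subst hc2
        have := h4 i2 h5
        omega
      · by_cases hc3 : c2 = m
        · subst hc3
          exact (h8.2.2 _ _ hu' (by omega) (Or.inl rfl)).elim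
        · exact (h8.2.2 _ _ hu (by omega) (by unfold kle at *; omega)).elim
  · constructor
    · rintro ⟨⟨i, hi⟩, i2, hi2⟩
      rw [hA'] at hi hi2
      obtain ⟨h1, h2⟩ := hi
      obtain ⟨h1', h2'⟩ := hi2
      have h3 := (hD _ _).1 h1
      have h3' := (hD _ _).1 h1'
      have h4 : ¬ D i (m + 1) := fun h4 => by
        have := h2 i (m + 1) h4 le_rfl (by unfold kle; omega)
        omega
      have h4' : ¬ D i2 (m + 1) := fun h4 => by
        have := h2' i2 (m + 1) h4 le_rfl (by unfold kle; omega)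
        omega
      obtain ⟨u, v, h5, h6, h7⟩ := notD _ _ h3.1 (by omega) h4
      obtain ⟨u2, v2, h5', h6', h7'⟩ := notD _ _ h3'.1 (by omega) h4'
      have h8 := h3.2.2 u v h5 h6
      have h8' := h3'.2.2 u2 v2 h5' h6'
      by_cases e1 : v = m + 1
      · subst e1; exact ⟨u, h5⟩
      by_cases e2 : v2 = m + 1
      · subst e2; exact ⟨u2, h5'⟩
      exfalso
      have e3 : v = m := by unfold kle at *; omega
      have e4 : v2 = m - 1 := by unfold kle at *; omega
      subst e3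
      subst e4
      have h9 : ¬ u2 ≤ i := fun h => h3.2.2 _ _ h5' h (Or.inl rfl)
      have h10 : ¬ u ≤ i2 := fun h => h3'.2.2 _ _ h5 h (Or.inl rfl)
      omega
    · rintro ⟨u, hu⟩
      have hb1 := hb _ _ hu
      constructor
      · have h1 : D u (m - 1) := by
          rw [hD]
          refine ⟨by omega, by omega, fun p q h2 h3 h4 => ?_⟩
          have := hA p q u (m + 1) h2 hu h3 (by unfold kle at *; omega)
          unfold kle at h4
          omega
        obtain ⟨i', h2, h3, h4⟩ := colmax _ _ h1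
        refine ⟨i', (hA' _ _).2 ⟨h2, fun i2 c2 h5 h6 h7 => ?_⟩⟩
        have h8 := (hD _ _).1 h5
        by_cases hc2 : c2 = m - 1
        · subst hc2
          have := h4 i2 h5
          omega
        · exact (h8.2.2 _ _ hu (by omega) (by unfold kle at *; omega)).elim
      · have h1 : D u m := by
          rw [hD]
          refine ⟨by omega, by omega, fun p q h2 h3 h4 => ?_⟩
          have := hA p q u (m + 1) h2 hu h3 (by unfold kle at *; omega)
          unfold kle at h4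
          omega
        obtain ⟨i', h2, h3, h4⟩ := colmax _ _ h1
        refine ⟨i', (hA' _ _).2 ⟨h2, fun i2 c2 h5 h6 h7 => ?_⟩⟩
        have h8 := (hD _ _).1 h5
        by_cases hc2 : c2 = m
        · subst hc2
          have := h4 i2 h5
          omega
        · exact (h8.2.2 _ _ hu (by omega) (by unfold kle at *; omega)).elim
  · constructor
    · rintro ⟨i, hi⟩ ⟨c, hc⟩
      rw [hA'] at hi
      have h3 := (hD _ _).1 hi.1
      have hb1 := hb _ _ hc
      exact h3.2.2 _ _ hc (by omega) (by unfold kle; omega)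
    · intro h
      have h1 : D 0 (2 * m - 1) := by
        rw [hD]
        refine ⟨by omega, by omega, fun u v h2 h3 h4 => ?_⟩
        have : u = 0 := by omega
        subst this
        exact h ⟨v, h2⟩
      obtain ⟨i', h2, h3, h4⟩ := colmax _ _ h1
      refine ⟨i', (hA' _ _).2 ⟨h2, fun i2 c2 h5 h6 h7 => ?_⟩⟩
      have h8 := (hD _ _).1 h5
      have : c2 = 2 * m - 1 := by unfold kle at h7; omega
      subst this
      have := h4 i2 h5
      omega

theorem K_rot (k m : ℕ) (hk : 1 ≤ k) (hm : 2 ≤ m) (A : Finset (ℕ × ℕ))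
    (hA : Anti (kpr m) (range k ×ˢ range (2 * m)) A) (A' : Finset (ℕ × ℕ))
    (hA' : A' = rev (kpr m) (range k ×ˢ range (2 * m)) A) :
    (∀ i, i + 1 < k → ((∃ c, (i, c) ∈ A') ↔ ∃ c, (i + 1, c) ∈ A)) ∧
    ((∃ c, (k - 1, c) ∈ A') ↔ ¬ ∃ i, (i, 0) ∈ A) ∧
    (∀ c, c + 1 < 2 * m → c ≠ m - 1 → c ≠ m → c + 1 ≠ m - 1 → c + 1 ≠ m →
      ((∃ i, (i, c) ∈ A') ↔ ∃ i, (i, c + 1) ∈ A)) ∧
    ((∃ i, (i, m - 2) ∈ A') ↔ (∃ i, (i, m - 1) ∈ A) ∧ ∃ i, (i, m) ∈ A) ∧
    (((∃ i, (i, m - 1) ∈ A') ∧ ∃ i, (i, m) ∈ A') ↔ ∃ i, (i, m + 1) ∈ A) ∧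
    ((∃ i, (i, 2 * m - 1) ∈ A') ↔ ¬ ∃ c, (0, c) ∈ A) := by
  refine K_rot_aux k m hk hm (fun u v => (u, v) ∈ A) (fun u v => (u, v) ∈ A')
    (fun i c => (i, c) ∈ range k ×ˢ range (2 * m) ∧ ∀ a ∈ A, ¬ kpr m a (i, c)) ?_ ?_ ?_ ?_
  · intro u v h
    have := hA.1 h
    simpa using this
  · intro u v u' v' h h' h1 h2
    have := hA.2 _ h _ h' ⟨h1, h2⟩
    simpa using this
  · intro i c
    constructor
    · rintro ⟨h1, h2⟩
      simp only [mem_product, mem_range] at h1
      exact ⟨h1.1, h1.2, fun u v h3 h4 h5 => h2 (u, v) h3 ⟨h4, h5⟩⟩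
    · rintro ⟨h1, h2, h3⟩
      refine ⟨by simp [h1, h2], fun a ha h4 => h3 a.1 a.2 ha h4.1 h4.2⟩
  · intro i c
    rw [hA', mem_rev]
    constructor
    · rintro ⟨h1, h2, h3⟩
      refine ⟨⟨h1, h2⟩, fun i2 c2 h4 h5 h6 => ?_⟩
      have := h3 (i2, c2) h4.1 h4.2 ⟨h5, h6⟩
      simpa using this
    · rintro ⟨⟨h1, h2⟩, h3⟩
      refine ⟨h1, h2, fun y hy h4 h5 => ?_⟩
      have := h3 y.1 y.2 ⟨hy, h4⟩ h5.1 h5.2
      exact Prod.ext this.1 this.2

end Pool.Agent.Helper645_PA
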