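import Pool.Agent.Helper645_PA.Defs

set_option autoImplicit false

/-!
# Shifted staircases (proved by helper980)
-/

namespace Pool.Agent.Helper645_PA

open Finset



/-- `s` is a coordinate of an element of `A`. -/
def stair_bal_H (A : Finset (ℕ × ℕ)) (s : ℕ) : Prop := ∃ x ∈ A, x.1 = s ∨ x.2 = s

theorem stair_bal_mem {n : ℕ} {x : ℕ × ℕ} :
    x ∈ (range n ×ˢ range n).filter (fun x => x.1 ≤ x.2) ↔ x.1 ≤ x.2 ∧ x.2 < n := by
  simp only [Finset.mem_filter, Finset.mem_product, Finset.mem_range]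
  constructor
  · rintro ⟨⟨_, h2⟩, h3⟩; exact ⟨h3, h2⟩
  · rintro ⟨h1, h2⟩; exact ⟨⟨by omega, h2⟩, h1⟩

theorem stair_bal_max {n : ℕ} {A : Finset (ℕ × ℕ)} {i j : ℕ} (hij : i ≤ j) (hj : j < n)
    (hD : ∀ a ∈ A, ¬ prd a (i, j)) (h1 : i + 1 ≤ j → ∃ a ∈ A, prd a (i + 1, j))
    (h2 : j + 1 < n → ∃ a ∈ A, prd a (i, j + 1)) :
    (i, j) ∈ rev prd ((range n ×ˢ range n).filter (fun x => x.1 ≤ x.2)) A := by
  rw [mem_rev]
  refine ⟨stair_bal_mem.2 ⟨hij, hj⟩, hD, ?_⟩
  rintro ⟨y1, y2⟩ hy hyD ⟨hy1, hy2⟩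
  have hy' := stair_bal_mem.1 hy
  simp only at hy' hy1 hy2
  have k2 : ¬ (j + 1 ≤ y2) := by
    intro h
    obtain ⟨a, ha, ha1, ha2⟩ := h2 (by omega)
    exact hyD a ha ⟨by simp only at ha1 ⊢; omega, by simp only at ha2 ⊢; omega⟩
  have k1 : ¬ (i + 1 ≤ y1) := by
    intro h
    obtain ⟨a, ha, ha1, ha2⟩ := h1 (by omega)
    exact hyD a ha ⟨by simp only at ha1 ⊢; omega, by simp only at ha2 ⊢; omega⟩
  rw [Prod.mk.injEq]
  omega

theorem stair_bal_step {n : ℕ} {A : Finset (ℕ × ℕ)}
    (hA : Anti prd ((range n ×ˢ range n).filter (fun x => x.1 ≤ x.2)) A) {s : ℕ} (hs : s + 1 < n) :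
    stair_bal_H (rev prd ((range n ×ˢ range n).filter (fun x => x.1 ≤ x.2)) A) s ↔
      stair_bal_H A (s + 1) := by
  classical
  constructor
  · rintro ⟨⟨x1, x2⟩, hx, hxs⟩
    obtain ⟨hxP, hxD, hxm⟩ := mem_rev.1 hx
    have hxP' := stair_bal_mem.1 hxP
    simp only at hxP' hxs
    have key : ∀ y1 y2 : ℕ, y1 ≤ y2 → y2 < n → x1 ≤ y1 → x2 ≤ y2 → (y1, y2) ≠ (x1, x2) →
        ∃ a ∈ A, prd a (y1, y2) := by
      intro y1 y2 hy hyn h1 h2 hne
      by_contra hcon
      push Not at hcon
      exact hne (hxm (y1, y2) (stair_bal_mem.2 ⟨hy, hyn⟩) hcon ⟨h1, h2⟩)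
    by_cases hc : x1 = s ∧ x1 < x2
    · obtain ⟨a, ha, ha1, ha2⟩ := key (x1 + 1) x2 (by omega) (by omega) (by omega) le_rfl (by simp)
      have hn := hxD a ha
      simp only [prd] at ha1 ha2 hn
      refine ⟨a, ha, Or.inl ?_⟩
      by_contra hne
      exact hn ⟨by omega, ha2⟩
    · have hx2 : x2 = s := by
        rcases hxs with h | h
        · by_contra hne
          exact hc ⟨h, by omega⟩
        · exact h
      obtain ⟨a, ha, ha1, ha2⟩ := key x1 (x2 + 1) (by omega) (by omega) le_rfl (by omega) (by simp)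
      have hn := hxD a ha
      simp only [prd] at ha1 ha2 hn
      refine ⟨a, ha, Or.inr ?_⟩
      by_contra hne
      exact hn ⟨ha1, by omega⟩
  · rintro ⟨⟨u, v⟩, ha, has⟩
    have haP := stair_bal_mem.1 (hA.1 ha)
    simp only at haP has
    by_cases hc : u = s + 1
    · -- first coordinate
      have hD : ∀ b ∈ A, ¬ prd b (s, v) := by
        rintro ⟨b1, b2⟩ hb ⟨hb1, hb2⟩
        simp only at hb1 hb2
        have := hA.2 (b1, b2) hb (u, v) ha ⟨by simp only; omega, by simp only; omega⟩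
        rw [Prod.mk.injEq] at this
        omega
      let Q : ℕ → Prop := fun j => ∀ b ∈ A, ¬ prd b (s, j)
      have hQ : Q v := hD
      have hg := Nat.findGreatest_spec (P := Q) (n := n - 1) (m := v) (by omega) hQ
      have hgv : v ≤ Nat.findGreatest Q (n - 1) := Nat.le_findGreatest (by omega) hQ
      have hgn : Nat.findGreatest Q (n - 1) ≤ n - 1 := Nat.findGreatest_le _
      refine ⟨(s, Nat.findGreatest Q (n - 1)), ?_, Or.inl rfl⟩
      refine stair_bal_max (by omega) (by omega) hg ?_ ?_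
      · intro _
        exact ⟨(u, v), ha, by simp only; omega, hgv⟩
      · intro h
        have := Nat.findGreatest_is_greatest (P := Q) (n := n - 1)
          (k := Nat.findGreatest Q (n - 1) + 1) (by omega) (by omega)
        simp only [Q, not_forall, not_not] at this
        obtain ⟨b, hb, hb'⟩ := this
        exact ⟨b, hb, hb'⟩
    · have hv : v = s + 1 := by omega
      have hD : ∀ b ∈ A, ¬ prd b (u, s) := by
        rintro ⟨b1, b2⟩ hb ⟨hb1, hb2⟩
        simp only at hb1 hb2
        have := hA.2 (b1, b2) hb (u, v) ha ⟨by simp only; omega, by simp only; omega⟩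
        rw [Prod.mk.injEq] at this
        omega
      let Q : ℕ → Prop := fun i => ∀ b ∈ A, ¬ prd b (i, s)
      have hQ : Q u := hD
      have hg := Nat.findGreatest_spec (P := Q) (n := s) (m := u) (by omega) hQ
      have hgv : u ≤ Nat.findGreatest Q s := Nat.le_findGreatest (by omega) hQ
      have hgn : Nat.findGreatest Q s ≤ s := Nat.findGreatest_le _
      refine ⟨(Nat.findGreatest Q s, s), ?_, Or.inr rfl⟩
      refine stair_bal_max hgn (by omega) hg ?_ ?_
      · intro h
        have := Nat.findGreatest_is_greatest (P := Q) (n := s)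
          (k := Nat.findGreatest Q s + 1) (by omega) (by omega)
        simp only [Q, not_forall, not_not] at this
        obtain ⟨b, hb, hb'⟩ := this
        exact ⟨b, hb, hb'⟩
      · intro _
        exact ⟨(u, v), ha, hgv, by simp only; omega⟩

theorem stair_bal_last {n : ℕ} (hn : 1 ≤ n) {A : Finset (ℕ × ℕ)}
    (hA : Anti prd ((range n ×ˢ range n).filter (fun x => x.1 ≤ x.2)) A) :
    stair_bal_H (rev prd ((range n ×ˢ range n).filter (fun x => x.1 ≤ x.2)) A) (n - 1) ↔
      ¬ stair_bal_H A 0 := by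
  classical
  constructor
  · rintro ⟨⟨x1, x2⟩, hx, hxs⟩ ⟨⟨u, v⟩, ha, has⟩
    obtain ⟨hxP, hxD, hxm⟩ := mem_rev.1 hx
    have hxP' := stair_bal_mem.1 hxP
    have haP := stair_bal_mem.1 (hA.1 ha)
    simp only at hxP' hxs haP has
    exact hxD (u, v) ha ⟨by simp only; omega, by simp only; omega⟩
  · intro h0
    let Q : ℕ → Prop := fun i => ∀ b ∈ A, ¬ prd b (i, n - 1)
    have hQ : Q 0 := by
      rintro ⟨b1, b2⟩ hb ⟨hb1, hb2⟩
      simp only at hb1 hb2
      exact h0 ⟨(b1, b2), hb, Or.inl (by simp only; omega)⟩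
    have hg := Nat.findGreatest_spec (P := Q) (n := n - 1) (m := 0) (by omega) hQ
    have hgn : Nat.findGreatest Q (n - 1) ≤ n - 1 := Nat.findGreatest_le _
    refine ⟨(Nat.findGreatest Q (n - 1), n - 1), ?_, Or.inr rfl⟩
    refine stair_bal_max hgn (by omega) hg ?_ ?_
    · intro h
      have := Nat.findGreatest_is_greatest (P := Q) (n := n - 1)
        (k := Nat.findGreatest Q (n - 1) + 1) (by omega) (by omega)
      simp only [Q, not_forall, not_not] at this
      obtain ⟨b, hb, hb'⟩ := this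
      exact ⟨b, hb, hb'⟩
    · intro h
      omega

open Classical in
/-- the number of coordinates of elements of `B` -/
noncomputable def stair_bal_h (n : ℕ) (B : Finset (ℕ × ℕ)) : ℕ :=
  ((range n).filter (fun s => stair_bal_H B s)).card

theorem stair_bal_count {n : ℕ} {B : Finset (ℕ × ℕ)}
    (hB : Anti prd ((range n ×ˢ range n).filter (fun x => x.1 ≤ x.2)) B) :
    ∃ d : ℕ, d ≤ 1 ∧ 2 * B.card = stair_bal_h n B + d := by
  classical
  have hF : (B.image Prod.fst).card = B.card := by
    apply Finset.card_image_of_injOn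
    rintro ⟨x1, x2⟩ hx ⟨y1, y2⟩ hy hxy
    simp only at hxy
    subst hxy
    rcases Nat.le_total x2 y2 with h | h
    · exact hB.2 _ hx _ hy ⟨le_rfl, h⟩
    · exact (hB.2 _ hy _ hx ⟨le_rfl, h⟩).symm
  have hG : (B.image Prod.snd).card = B.card := by
    apply Finset.card_image_of_injOn
    rintro ⟨x1, x2⟩ hx ⟨y1, y2⟩ hy hxy
    simp only at hxy
    subst hxy
    rcases Nat.le_total x1 y1 with h | h
    · exact hB.2 _ hx _ hy ⟨h, le_rfl⟩
    · exact (hB.2 _ hy _ hx ⟨h, le_rfl⟩).symm
  have hU : (range n).filter (fun s => stair_bal_H B s) = B.image Prod.fst ∪ B.image Prod.snd := by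
    ext s
    rw [Finset.mem_filter, Finset.mem_range, Finset.mem_union, Finset.mem_image, Finset.mem_image]
    constructor
    · rintro ⟨_, x, hx, h | h⟩
      · exact Or.inl ⟨x, hx, h⟩
      · exact Or.inr ⟨x, hx, h⟩
    · rintro (⟨x, hx, h⟩ | ⟨x, hx, h⟩)
      · have := stair_bal_mem.1 (hB.1 hx)
        exact ⟨by omega, x, hx, Or.inl h⟩
      · have := stair_bal_mem.1 (hB.1 hx)
        exact ⟨by omega, x, hx, Or.inr h⟩
  refine ⟨(B.image Prod.fst ∩ B.image Prod.snd).card, ?_, ?_⟩
  · rw [Finset.card_le_one]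
    have key : ∀ s ∈ B.image Prod.fst ∩ B.image Prod.snd, (s, s) ∈ B := by
      intro s hs
      rw [Finset.mem_inter, Finset.mem_image, Finset.mem_image] at hs
      obtain ⟨⟨⟨x1, x2⟩, hx, h1⟩, ⟨⟨y1, y2⟩, hy, h2⟩⟩ := hs
      simp only at h1 h2
      subst h1
      subst h2
      have hx' := stair_bal_mem.1 (hB.1 hx)
      have hy' := stair_bal_mem.1 (hB.1 hy)
      simp only at hx' hy'
      have := hB.2 _ hy _ hx ⟨hy'.1, hx'.1⟩
      rw [Prod.mk.injEq] at this
      obtain ⟨e1, e2⟩ := this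
      subst e1
      exact hy
    intro a ha b hb
    rcases Nat.le_total a b with h | h
    · exact (Prod.mk.injEq _ _ _ _ ▸ hB.2 _ (key a ha) _ (key b hb) ⟨h, h⟩ : a = b ∧ a = b).1
    · exact (Prod.mk.injEq _ _ _ _ ▸ hB.2 _ (key b hb) _ (key a ha) ⟨h, h⟩ : b = a ∧ b = a).1.symm
  · unfold stair_bal_h
    have := Finset.card_union_add_card_inter (B.image Prod.fst) (B.image Prod.snd)
    rw [hF, hG] at this
    rw [← hU] at this
    omega

theorem stair_bal_card (n : ℕ) :
    2 * ((range n ×ˢ range n).filter (fun x => x.1 ≤ x.2)).card = n * n + n := by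
  have h1 : ((range n ×ˢ range n).filter (fun x => x.1 ≤ x.2)).card = ∑ j ∈ range n, (j + 1) := by
    rw [Finset.card_filter, Finset.sum_product_right]
    refine Finset.sum_congr rfl fun j hj => ?_
    have hj' := Finset.mem_range.1 hj
    rw [← Finset.card_filter]
    have : (range n).filter (fun i => i ≤ j) = range (j + 1) := by
      ext i
      simp only [Finset.mem_filter, Finset.mem_range]
      omega
    simp only
    rw [this, Finset.card_range]
  rw [h1]
  clear h1
  induction n with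
  | zero => simp
  | succ n ih =>
    rw [Finset.sum_range_succ, mul_add, ih]
    ring


theorem stair_bal (n : ℕ) (hn : 1 ≤ n) :
    Bal prd ((range n ×ˢ range n).filter fun x => x.1 ≤ x.2) (2 * n) := by
  classical
  intro A hA
  obtain ⟨P, hP⟩ : ∃ P : Finset (ℕ × ℕ), P = (range n ×ˢ range n).filter (fun x => x.1 ≤ x.2) :=
    ⟨_, rfl⟩
  rw [← hP] at hA ⊢
  let B : ℕ → Finset (ℕ × ℕ) := fun t => (rev prd P)^[t] A
  have hB : ∀ t, Anti prd P (B t) := fun t => iter_anti hA t
  have hBs : ∀ t, B (t + 1) = rev prd P (B t) := fun t => Function.iterate_succ_apply' _ _ _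
  have hstep : ∀ t s, s + 1 < n → (stair_bal_H (B (t + 1)) s ↔ stair_bal_H (B t) (s + 1)) := by
    intro t s hs
    rw [hBs t, hP]
    exact stair_bal_step (hP ▸ hB t) hs
  have hlast : ∀ t, (stair_bal_H (B (t + 1)) (n - 1) ↔ ¬ stair_bal_H (B t) 0) := by
    intro t
    rw [hBs t, hP]
    exact stair_bal_last hn (hP ▸ hB t)
  let w : ℕ → ℕ → ℕ := fun t s =>
    if s < n then (if stair_bal_H (B t) s then 1 else 0)
    else (if stair_bal_H (B t) (s - n) then 0 else 1)
  have hw1 : ∀ t s, s < n → w t s = if stair_bal_H (B t) s then 1 else 0 := by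
    intro t s hs; simp only [w]; rw [if_pos hs]
  have hw2 : ∀ t s, w t (s + n) = if stair_bal_H (B t) s then 0 else 1 := by
    intro t s; simp only [w]; rw [if_neg (by omega), Nat.add_sub_cancel]
  have hr1 : ∀ t s, s + 1 < 2 * n → w (t + 1) s = w t (s + 1) := by
    intro t s hs
    rcases Nat.lt_or_ge (s + 1) n with h | h
    · rw [hw1 _ _ (by omega), hw1 _ _ h]
      simp only [hstep t s h]
    · rcases Nat.eq_or_lt_of_le h with h' | h'
      · rw [hw1 _ _ (by omega), show s + 1 = 0 + n by omega, hw2, show s = n - 1 by omega]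
        by_cases h0 : stair_bal_H (B t) 0
        · rw [if_neg (fun h1 => (hlast t).1 h1 h0), if_pos h0]
        · rw [if_pos ((hlast t).2 h0), if_neg h0]
      · obtain ⟨s', rfl⟩ : ∃ s', s = s' + n := ⟨s - n, by omega⟩
        rw [show s' + n + 1 = s' + 1 + n by omega, hw2, hw2]
        simp only [hstep t s' (by omega)]
  have hr2 : ∀ t, w (t + 1) (2 * n - 1) = w t 0 := by
    intro t
    rw [show 2 * n - 1 = (n - 1) + n by omega, hw2, hw1 _ _ (by omega)]
    by_cases h0 : stair_bal_H (B t) 0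
    · rw [if_neg (fun h1 => (hlast t).1 h1 h0), if_pos h0]
    · rw [if_pos ((hlast t).2 h0), if_neg h0]
  have hrot := rot_sum (2 * n) w hr1 hr2
  have h0 : ∑ j ∈ range (2 * n), w 0 j = n := by
    rw [two_mul, Finset.sum_range_add, ← Finset.sum_add_distrib]
    rw [Finset.sum_congr rfl (g := fun _ => 1)]
    · simp
    · intro s hs
      rw [add_comm n s, hw1 _ _ (Finset.mem_range.1 hs), hw2]
      split_ifs <;> rfl
  have hh : ∀ t, stair_bal_h n (B t) = ∑ s ∈ range n, w t s := by
    intro t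
    unfold stair_bal_h
    rw [Finset.card_filter]
    refine Finset.sum_congr rfl fun s hs => ?_
    rw [hw1 _ _ (Finset.mem_range.1 hs)]
  have hsumh : ∑ t ∈ range (2 * n), stair_bal_h n (B t) = n * n := by
    simp only [hh]
    rw [Finset.sum_comm]
    rw [Finset.sum_congr rfl (g := fun _ => n)]
    · simp
    · intro s hs
      rw [hrot s (by have := Finset.mem_range.1 hs; omega), h0]
  have hcount : ∀ t, ∃ d : ℕ, d ≤ 1 ∧ 2 * (B t).card = stair_bal_h n (B t) + d := by
    intro t
    exact stair_bal_count (hP ▸ hB t)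
  choose d hd1 hd2 using hcount
  -- the parity alternates
  have hpar : ∀ t, stair_bal_h n (B (t + 1)) + 2 * w t 0 = stair_bal_h n (B t) + 1 := by
    intro t
    have e1 : ∑ s ∈ range n, w t s + w t n = ∑ s ∈ range n, w t (s + 1) + w t 0 := by
      rw [← Finset.sum_range_succ, Finset.sum_range_succ']
    have e2 : ∑ s ∈ range n, w (t + 1) s = ∑ s ∈ range n, w t (s + 1) := by
      refine Finset.sum_congr rfl fun s hs => hr1 t s ?_
      have := Finset.mem_range.1 hs
      omega
    have e3 : w t n = 1 - w t 0 := by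
      have := hw2 t 0
      rw [Nat.zero_add] at this
      rw [this, hw1 _ _ (by omega)]
      split_ifs <;> rfl
    have e4 : w t 0 ≤ 1 := by
      rw [hw1 _ _ (by omega)]
      split_ifs <;> omega
    rw [hh, hh]
    omega
  have hdd : ∀ t, d t + d (t + 1) = 1 := by
    intro t
    have a1 := hd1 t
    have a2 := hd1 (t + 1)
    have a3 := hd2 t
    have a4 := hd2 (t + 1)
    have a5 := hpar t
    omega
  have hsumd : ∀ k, ∑ t ∈ range (2 * k), d t = k := by
    intro k
    induction k with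
    | zero => simp
    | succ k ih =>
      rw [show 2 * (k + 1) = 2 * k + 1 + 1 by ring, Finset.sum_range_succ, Finset.sum_range_succ, ih]
      have := hdd (2 * k)
      omega
  have hfin : 2 * ∑ t ∈ range (2 * n), (B t).card = n * n + n := by
    rw [Finset.mul_sum, Finset.sum_congr rfl (fun t _ => hd2 t), Finset.sum_add_distrib, hsumh,
      hsumd]
  have hc := stair_bal_card n
  rw [← hP] at hc
  change ∑ t ∈ range (2 * n), (B t).card = P.card
  omega

end Pool.Agent.Helper645_PA
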