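import Pool.Agent.Helper645_PA.Cases
import Pool.Agent.Helper282_TM.TypeB

set_option autoImplicit false

/-!
# Types A and B (MP_f8f4ef_co)
-/

namespace Pool.Agent.Helper645_PA

open Finset Pool.Agent.Helper282_TM CartanMatrix

theorem sum_ind1 {n : ℕ} (p : ℕ → Prop) [DecidablePred p] :
    ∑ t : Fin n, (if p t then (1 : ℤ) else 0) = (((range n).filter p).card : ℤ) := by
  rw [Finset.card_filter, Finset.sum_range]
  push_cast
  rfl

theorem card_lt (n y : ℕ) : ((range n).filter (fun t => t < y)).card = min n y := by
  have : (range n).filter (fun t => t < y) = range (min n y) := by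
    ext t
    simp only [Finset.mem_filter, Finset.mem_range]
    omega
  rw [this, Finset.card_range]

theorem card_ge (n z : ℕ) : ((range n).filter (fun t => z ≤ t)).card = n - z := by
  have : (range n).filter (fun t => z ≤ t) = Finset.Ico z n := by
    ext t
    simp only [Finset.mem_filter, Finset.mem_range, Finset.mem_Ico]
    omega
  rw [this, Nat.card_Ico]

theorem htA (n x y : ℕ) (hx : x ≤ n) (hy : y ≤ n) : Ht (VA n x y) = (y : ℤ) - x := by
  unfold Ht VA posA
  rw [Finset.sum_sub_distrib, sum_ind1 (fun t => t < y), sum_ind1 (fun t => t < x), card_lt,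
    card_lt]
  omega

theorem stdA (hbox : ∀ p q : ℕ, 1 ≤ p → 1 ≤ q → Bal prd (range p ×ˢ range q) (p + q))
    (n : ℕ) (a : Fin n) : Std (A n) a := by
  have han := a.isLt
  refine boxStd hbox (VA n) a (a + 1) n (by omega) ?_ ?_ ?_
  · intro v
    constructor
    · rintro ⟨h1, h2⟩
      obtain ⟨x, y, hx, hy, hxy, rfl⟩ := rootsA h1
      have hxa : x ≤ a ∧ (a : ℕ) < y := by
        simp only [VA, posA] at h2; grind
      exact ⟨x, y, hxa.1, hxa.2, hy, rfl⟩
    · rintro ⟨x, y, h1, h2, h3, rfl⟩
      refine ⟨isRootA x y (by omega) (by omega), ?_⟩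
      simp only [VA, posA]; grind
  · intro x y x' y' h1 h2 h3 h4 h5 h6
    constructor
    · intro h
      by_contra hcon
      rcases Nat.lt_or_ge x x' with h9 | h9
      · have := h ⟨x, by omega⟩
        simp only [VA, posA] at this
        grind
      · have := h ⟨y', by omega⟩
        simp only [VA, posA] at this
        grind
    · intro h t
      simp only [VA, posA]
      grind
  · rw [htA n 0 n (by omega) le_rfl]
    omega

theorem htB (n x y : ℕ) (hx : x ≤ 2 * n) (hy : y ≤ 2 * n) : Ht (VB n x y) = (y : ℤ) - x := by
  have key : ∀ z, z ≤ 2 * n → ∑ t : Fin n, posB n z t = (z : ℤ) := by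
    intro z hz
    unfold posB
    rw [Finset.sum_add_distrib, sum_ind1 (fun t => t < z), sum_ind1 (fun t => 2 * n ≤ t + z),
      card_lt]
    have : (range n).filter (fun t => 2 * n ≤ t + z) = (range n).filter (fun t => 2 * n - z ≤ t) := by
      ext t
      simp only [Finset.mem_filter, Finset.mem_range]
      omega
    rw [this, card_ge]
    omega
  unfold Ht VB
  rw [Finset.sum_sub_distrib, key y hy, key x hx]

theorem stdB (hbox : ∀ p q : ℕ, 1 ≤ p → 1 ≤ q → Bal prd (range p ×ˢ range q) (p + q))
    (n : ℕ) (a : Fin n) : Std (B n) a := by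
  have han := a.isLt
  refine boxStd hbox (VB n) a (a + 1) (2 * n - 1 - a) (by omega) ?_ ?_ ?_
  · intro v
    constructor
    · rintro ⟨h1, h2⟩
      obtain ⟨x, y, hxy, hs, h⟩ := TB.rootsB' h1
      rcases h with rfl | rfl
      · have hxa : x ≤ a ∧ (a : ℕ) < y ∧ y ≤ 2 * n - 1 - a := by
          simp only [VB, posB] at h2
          grind (splits := 40)
        exact ⟨x, y, hxa.1, hxa.2.1, hxa.2.2, rfl⟩
      · exfalso
        simp only [VB, posB] at h2
        grind (splits := 40)
    · rintro ⟨x, y, h1, h2, h3, rfl⟩
      refine ⟨TB.isRootB x y (by omega) (by omega), ?_⟩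
      simp only [VB, posB]; grind (splits := 40)
  · intro x y x' y' h1 h2 h3 h4 h5 h6
    constructor
    · intro h
      by_contra hcon
      rcases Nat.lt_or_ge x x' with h9 | h9
      · have := h ⟨x, by omega⟩
        simp only [VB, posB] at this
        grind (splits := 40)
      · rcases Nat.lt_or_ge y' n with h10 | h10
        · have := h ⟨y', by omega⟩
          simp only [VB, posB] at this
          grind (splits := 40)
        · have := h ⟨2 * n - y, by omega⟩
          simp only [VB, posB] at this
          grind (splits := 40)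
    · intro h t
      have ht := t.isLt
      simp only [VB, posB]
      grind (splits := 40)
  · rw [htB n 0 _ (by omega) (by omega)]
    omega

end Pool.Agent.Helper645_PA
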