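import Pool.Agent.Helper645_PA.TypeAB
import Pool.Agent.Helper282_TM.TypeC

set_option autoImplicit false

/-!
# Type C (MP_f8f4ef_co)
-/

namespace Pool.Agent.Helper645_PA

open Finset Pool.Agent.Helper282_TM CartanMatrix

theorem htC (n x y : ℕ) (hx : x < 2 * n) (hy : y < 2 * n) : Ht (VC n x y) = (y : ℤ) - x := by
  have key : ∀ z, z < 2 * n → ∑ t : Fin n, posC n z t = (z : ℤ) := by
    intro z hz
    unfold posC
    have e : ∀ t : ℕ, (if t + 1 < n then (if 2 * n ≤ t + z + 1 then (1 : ℤ) else 0) else 0) =
        if (t + 1 < n ∧ 2 * n ≤ t + z + 1) then 1 else 0 := by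
      intro t
      split_ifs <;> first | rfl | omega
    simp only [e]
    rw [Finset.sum_add_distrib, sum_ind1 (fun t => t < z),
      sum_ind1 (fun t => t + 1 < n ∧ 2 * n ≤ t + z + 1), card_lt]
    have : (range n).filter (fun t => t + 1 < n ∧ 2 * n ≤ t + z + 1) =
        (range (n - 1)).filter (fun t => 2 * n - z - 1 ≤ t) := by
      ext t
      simp only [Finset.mem_filter, Finset.mem_range]
      omega
    rw [this, card_ge]
    omega
  unfold Ht VC
  rw [Finset.sum_sub_distrib, key y hy, key x hx]

theorem stdC (hbox : ∀ p q : ℕ, 1 ≤ p → 1 ≤ q → Bal prd (range p ×ˢ range q) (p + q))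
    (hstair : ∀ q : ℕ, 1 ≤ q →
      Bal prd ((range q ×ˢ range q).filter fun x => x.1 ≤ x.2) (2 * q))
    (n : ℕ) (a : Fin n) : Std (C n) a := by
  have han := a.isLt
  rcases Nat.lt_or_ge (a + 1) n with hcase | hcase
  · refine boxStd hbox (VC n) a (a + 1) (2 * n - 2 - a) (by omega) ?_ ?_ ?_
    · intro v
      constructor
      · rintro ⟨h1, h2⟩
        obtain ⟨x, y, hx, hy, hxy, rfl⟩ := TC.rootsC h1
        have hlt : x < y := by
          by_contra hge
          obtain ⟨x', y', g1, g2, g3⟩ := TC.normal hy hx (by omega)
          have e : VC n x y = - VC n x' y' := by rw [TC.VC_neg, g3]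
          have := TC.nonneg_VC g1 g2 a
          rw [e, Pi.neg_apply] at h2
          simp only [Pi.zero_apply] at this
          omega
        obtain ⟨x', y', g1, g2, g3⟩ := TC.normal hx hy hlt
        rw [g3] at h2 ⊢
        clear g3 h1 hlt hxy hx hy
        rw [TC.VC_apply g1 g2] at h2
        have hxa : x' ≤ a ∧ (a : ℕ) < y' ∧ y' + a + 2 ≤ 2 * n := by grind
        exact ⟨x', y', hxa.1, hxa.2.1, by omega, rfl⟩
      · rintro ⟨x, y, h1, h2, h3, rfl⟩
        refine ⟨TC.isRootC4 x y (by omega) (by omega), ?_⟩
        rw [TC.VC_apply (by omega) (by omega)]; grind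
    · intro x y x' y' h1 h2 h3 h4 h5 h6
      constructor
      · intro h
        by_contra hcon
        rcases Nat.lt_or_ge x x' with h9 | h9
        · have := h ⟨x, by omega⟩
          rw [TC.VC_apply (by omega) (by omega), TC.VC_apply (by omega) (by omega)] at this
          grind
        · rcases Nat.lt_or_ge n y with h10 | h10
          · have := h ⟨2 * n - 1 - y, by omega⟩
            rw [TC.VC_apply (by omega) (by omega), TC.VC_apply (by omega) (by omega)] at this
            grind
          · have := h ⟨y', by omega⟩
            rw [TC.VC_apply (by omega) (by omega), TC.VC_apply (by omega) (by omega)] at this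
            grind
      · intro h t
        have ht := t.isLt
        rw [TC.VC_apply (by omega) (by omega), TC.VC_apply (by omega) (by omega)]
        grind
    · rw [htC n 0 _ (by omega) (by omega)]
      omega
  · have han' : (a : ℕ) + 1 = n := by omega
    have hV : ∀ x y : ℕ, x ≤ a → y ≤ a → ∀ t : Fin n, VC n x (2 * n - 1 - y) t =
        (if x ≤ t then 1 else 0) + (if (t : ℕ) + 1 < n ∧ y ≤ t then 1 else 0) := by
      intro x y hx hy t
      have ht := t.isLt
      simp only [VC, posC]
      grind (splits := 40)
    refine stairStd hstair (fun x y => VC n x (2 * n - 1 - y)) 0 a (by omega) ?_ ?_ ?_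
    · intro v
      constructor
      · rintro ⟨h1, h2⟩
        obtain ⟨x, y, hx, hy, hxy, rfl⟩ := TC.rootsC h1
        have hlt : x < y := by
          by_contra hge
          obtain ⟨x', y', g1, g2, g3⟩ := TC.normal hy hx (by omega)
          have e : VC n x y = - VC n x' y' := by rw [TC.VC_neg, g3]
          have := TC.nonneg_VC g1 g2 a
          rw [e, Pi.neg_apply] at h2
          simp only [Pi.zero_apply] at this
          omega
        obtain ⟨x', y', g1, g2, g3⟩ := TC.normal hx hy hlt
        rw [g3] at h2 ⊢
        clear g3 h1 hlt hxy hx hy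
        rw [TC.VC_apply g1 g2] at h2
        have hxa : x' ≤ a ∧ (a : ℕ) < y' := by grind
        refine ⟨x', 2 * n - 1 - y', by omega, by omega, ?_⟩
        try simp only
        congr 1
        omega
      · rintro ⟨x, y, h1, h2, rfl⟩
        refine ⟨TC.isRootC _ _ (by omega) (by omega), ?_⟩
        try simp only
        rw [hV x y (by omega) (by omega)]; grind
    · intro x y x' y' h1 h2 h3 h4
      constructor
      · intro h
        by_contra hcon
        rcases Nat.lt_or_ge x x' with h9 | h9
        · have := h ⟨x, by omega⟩
          simp only at this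
          rw [hV x y (by omega) (by omega), hV x' y' (by omega) (by omega)] at this
          grind
        · have := h ⟨y, by omega⟩
          simp only at this
          rw [hV x y (by omega) (by omega), hV x' y' (by omega) (by omega)] at this
          grind
      · intro h t
        try simp only
        rw [hV x y (by omega) (by omega), hV x' y' (by omega) (by omega)]
        grind
    · try simp only
      rw [htC n 0 _ (by omega) (by omega)]
      omega

end Pool.Agent.Helper645_PA
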