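import Pool.Agent.Helper645_PA.TypeAB
import Pool.Agent.Helper282_TM.TypeD

set_option autoImplicit false

/-!
# Type D (MP_f8f4ef_co)
-/

namespace Pool.Agent.Helper645_PA

open Finset Pool.Agent.Helper282_TM CartanMatrix

theorem htD0 (m y : ℕ) (hy : y < 2 * (m + 2)) :
    ∑ t : Fin (m + 2), posD (m + 2) y t = if y < m + 2 then (y : ℤ) else y - 1 := by
  rw [Fin.sum_univ_castSucc, Fin.sum_univ_castSucc]
  have e : ∀ t : Fin m, posD (m + 2) y ((t.castSucc.castSucc : Fin (m + 2)) : ℕ) =
      (if (t : ℕ) < y then 1 else 0) + (if 2 * (m + 2) ≤ (t : ℕ) + y + 1 then 1 else 0) := by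
    intro t
    have ht := t.isLt
    simp only [Fin.val_castSucc]
    unfold posD
    rw [if_pos (by omega)]
  simp only [e]
  rw [Finset.sum_add_distrib, sum_ind1 (fun t => t < y),
    sum_ind1 (fun t => 2 * (m + 2) ≤ t + y + 1), card_lt]
  have : (range m).filter (fun t => 2 * (m + 2) ≤ t + y + 1) =
      (range m).filter (fun t => 2 * (m + 2) - y - 1 ≤ t) := by
    ext t
    simp only [Finset.mem_filter, Finset.mem_range]
    omega
  rw [this, card_ge]
  simp only [Fin.val_castSucc, Fin.val_last, posD]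
  split_ifs <;> omega

theorem htD {n : ℕ} (hn : 3 ≤ n) (x y : ℕ) (hx : x < 2 * n) (hy : y < 2 * n) :
    Ht (VD n x y) = (if y < n then (y : ℤ) else y - 1) - (if x < n then (x : ℤ) else x - 1) := by
  obtain ⟨m, rfl⟩ : ∃ m, n = m + 2 := ⟨n - 2, by omega⟩
  unfold Ht VD
  rw [Finset.sum_sub_distrib, htD0 m y hy, htD0 m x hx]

theorem stdDK (hK : ∀ k m : ℕ, 1 ≤ k → 2 ≤ m →
      Bal (kpr m) (range k ×ˢ range (2 * m)) (k + (2 * m - 1)))
    {n : ℕ} (hn : 3 ≤ n) (a : Fin n) (ha1 : (a : ℕ) + 3 ≤ n) : Std (D n) a := by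
  refine kStd hK (fun x y => VD n x (a + 1 + y)) a (n - 1 - a) (by omega) ?_ ?_ ?_
  · intro v
    constructor
    · rintro ⟨h1, h2⟩
      obtain ⟨x, y, hx, hy, hxy, hs, rfl⟩ := rootsD hn h1
      simp only [VD, posD] at h2
      have hcase : (x ≤ a ∧ (a : ℕ) < y ∧ y ≤ 2 * n - 2 - a) ∨
          ((a : ℕ) < x ∧ x ≤ 2 * n - 2 - a ∧ 2 * n - 1 - a ≤ y) := by
        grind
      rcases hcase with ⟨c1, c2, c3⟩ | ⟨c1, c2, c3⟩
      · exact ⟨x, y - (a + 1), c1, by omega, by congr 1; omega⟩
      · refine ⟨2 * n - 1 - y, 2 * n - 1 - x - (a + 1), by omega, by omega, ?_⟩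
        rw [DK.mirror x y hx hy]
        try simp only
        congr 1
        omega
    · rintro ⟨x, y, h2, h3, rfl⟩
      refine ⟨isRootD hn x _ (by omega) (by omega) (by omega) (by omega), ?_⟩
      simp only [VD]
      rw [DK.low ha1 h2, DK.mid ha1 h3 le_rfl, if_neg (by omega)]
      rfl
  · intro x y x' y' h2 h3 h5 h6
    exact ⟨DK.le_imp ha1 h2 h3 h5 h6, DK.imp_le ha1 h2 h3 h5 h6⟩
  · rw [htD hn 0 _ (by omega) (by omega), if_neg (by omega), if_pos (by omega)]
    omega

theorem stdDS (hstair : ∀ q : ℕ, 1 ≤ q →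
      Bal prd ((range q ×ˢ range q).filter fun x => x.1 ≤ x.2) (2 * q))
    {n : ℕ} (hn : 3 ≤ n) (a : Fin n) (ha1 : (a : ℕ) + 1 = n) : Std (D n) a := by
  refine stairStd hstair (fun x y => VD n x (2 * n - 1 - y)) 1 (n - 1) (by omega) ?_ ?_ ?_
  · intro v
    constructor
    · rintro ⟨h1, h2⟩
      obtain ⟨x, y, hx, hy, hxy, hs, rfl⟩ := rootsD hn h1
      have hc : x < n ∧ n ≤ y := by
        simp only [VD, posD] at h2
        grind
      rcases Nat.lt_or_ge x (2 * n - 1 - y) with h | h
      · refine ⟨x, 2 * n - 1 - y, by omega, by omega, ?_⟩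
        try simp only
        congr 1
        omega
      · refine ⟨2 * n - 1 - y, x, by omega, by omega, ?_⟩
        try simp only
        rw [← DS.symm hn x (2 * n - 1 - y) (by omega) (by omega)]
        congr 1
        omega
    · rintro ⟨x, y, h1, h3, rfl⟩
      refine ⟨isRootD hn x _ (by omega) (by omega) (by omega) (by omega), ?_⟩
      simp only [VD]
      exact DS.coord3 hn x y _ (by omega) (by omega) (by omega) ha1
  · intro x y x' y' h2 h3 h5 h6
    constructor
    · intro h
      have g1 := h ⟨x, by omega⟩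
      have g2 := h ⟨y, by omega⟩
      simp only [VD] at g1 g2
      by_contra hcon
      rcases Nat.lt_or_ge (x + 2) n with h9 | h9
      · rw [DS.coord1 hn x y _ (by omega) (by omega) (by omega) h9,
          DS.coord1 hn x' y' _ (by omega) (by omega) (by omega) h9] at g1
        rcases Nat.lt_or_ge (y + 2) n with h8 | h8
        · rw [DS.coord1 hn x y _ (by omega) (by omega) (by omega) h8,
            DS.coord1 hn x' y' _ (by omega) (by omega) (by omega) h8] at g2
          grind
        · rcases Nat.lt_or_ge (y + 1) n with h7 | h7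
          · rw [DS.coord2 hn x y _ (by omega) (by omega) (by omega) (by omega),
              DS.coord2 hn x' y' _ (by omega) (by omega) (by omega) (by omega)] at g2
            grind
          · grind
      · rw [DS.coord2 hn x y _ (by omega) (by omega) (by omega) (by omega),
          DS.coord2 hn x' y' _ (by omega) (by omega) (by omega) (by omega)] at g1
        grind
    · intro h t
      simp only [VD]
      have ht := t.isLt
      rcases Nat.lt_or_ge (t + 2) n with h9 | h9
      · rw [DS.coord1 hn x y _ (by omega) (by omega) (by omega) h9,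
          DS.coord1 hn x' y' _ (by omega) (by omega) (by omega) h9]
        grind
      · rcases Nat.lt_or_ge (t + 1) n with h7 | h7
        · rw [DS.coord2 hn x y _ (by omega) (by omega) (by omega) (by omega),
            DS.coord2 hn x' y' _ (by omega) (by omega) (by omega) (by omega)]
          grind
        · rw [DS.coord3 hn x y _ (by omega) (by omega) (by omega) (by omega),
            DS.coord3 hn x' y' _ (by omega) (by omega) (by omega) (by omega)]
  · rw [htD hn 0 _ (by omega) (by omega), if_neg (by omega), if_pos (by omega)]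
    omega

theorem Ht_T {n : ℕ} (hn : 3 ≤ n) (v : Fin n → ℤ) : Ht (DA.T hn v) = Ht v := by
  unfold Ht
  exact Equiv.sum_comp (DA.θe hn) v

theorem std_T {n : ℕ} (hn : 3 ≤ n) (a : Fin n) (h : Std (D n) a) : Std (D n) (DA.θ hn a) := by
  classical
  obtain ⟨P, hP, d, ⟨v0, hv0, hd⟩, hle, hB⟩ := h
  have hmem : ∀ v, v ∈ P.image (DA.T hn) ↔ IsRoot (D n) v ∧ v (DA.θ hn a) = 1 := by
    intro v
    rw [Finset.mem_image]
    constructor
    · rintro ⟨x, hx, rfl⟩
      refine ⟨DA.isRoot_T hn ((hP x).1 hx).1, ?_⟩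
      simp only [DA.T, DA.θ_θ]
      exact ((hP x).1 hx).2
    · rintro ⟨h1, h2⟩
      exact ⟨DA.T hn v, (hP _).2 ⟨DA.isRoot_T hn h1, h2⟩, DA.T_T hn v⟩
  refine ⟨P.image (DA.T hn), hmem, d, ⟨DA.T hn v0, Finset.mem_image_of_mem _ hv0, ?_⟩, ?_, ?_⟩
  · rw [Ht_T]; exact hd
  · intro v hv
    obtain ⟨x, hx, rfl⟩ := Finset.mem_image.1 hv
    rw [Ht_T]
    exact hle x hx
  · refine hB.transfer (DA.T hn) (fun x => Finset.mem_image) ?_ ?_
    · intro x _ y _ hxy
      exact DA.T_inj hn hxy
    · intro x _ y _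
      constructor
      · intro hle i
        have := hle (DA.θ hn i)
        simp only [DA.T, DA.θ_θ] at this
        exact this
      · intro hle i
        exact hle _

theorem stdD (hstair : ∀ q : ℕ, 1 ≤ q →
      Bal prd ((range q ×ˢ range q).filter fun x => x.1 ≤ x.2) (2 * q))
    (hK : ∀ k m : ℕ, 1 ≤ k → 2 ≤ m →
      Bal (kpr m) (range k ×ˢ range (2 * m)) (k + (2 * m - 1)))
    (n : ℕ) (hn : 3 ≤ n) (a : Fin n) : Std (D n) a := by
  have han := a.isLt
  rcases Nat.lt_or_ge ((a : ℕ) + 2) n with h | h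
  · exact stdDK hK hn a h
  by_cases h1 : (a : ℕ) + 1 = n
  · exact stdDS hstair hn a h1
  · have h2 : (a : ℕ) + 2 = n := by omega
    have e := std_T hn (⟨n - 1, by omega⟩ : Fin n) (stdDS hstair hn _ (by simp only; omega))
    have e2 : DA.θ hn (⟨n - 1, by omega⟩ : Fin n) = a := by
      apply Fin.ext
      simp only [DA.θ, DA.th]
      rw [if_neg (by omega), if_pos (by omega)]
      omega
    rwa [e2] at e

end Pool.Agent.Helper645_PA
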